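import Mathlib

/-!
# Algebra of the two Lagrange resolvents
-/

set_option autoImplicit false

namespace Pool.Agent.KS6_95.HM

/-- the two primitive cube roots of unity -/
structure Cub (w w' : ℂ) : Prop where
  s : w + w' + 1 = 0
  m : w * w' = 1

namespace Cub

variable {w w' : ℂ}

theorem symm (h : Cub w w') : Cub w' w := ⟨by linear_combination h.s, by linear_combination h.m⟩

theorem eq (h : Cub w w') : w' = -1 - w := by linear_combination h.s

theorem q (h : Cub w w') : w ^ 2 + w + 1 = 0 := by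
  linear_combination w * h.s - h.m

theorem sq (h : Cub w w') : w ^ 2 = w' := by
  linear_combination w * h.s - h.m - h.s

theorem cube (h : Cub w w') : w ^ 3 = 1 := by
  linear_combination (w - 1) * h.q

theorem ne_zero (h : Cub w w') : w ≠ 0 := by
  rintro rfl
  have := h.m
  simp at this

theorem ne (h : Cub w w') : w ≠ w' := by
  intro h1
  have h2 := h.s
  have h3 := h.m
  rw [← h1] at h2 h3
  have h4 : w = -1 / 2 := by linear_combination h2 / 2
  rw [h4] at h3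
  norm_num at h3

theorem ne_one (h : Cub w w') : w ≠ 1 := by
  rintro rfl
  have h2 := h.q
  norm_num at h2

theorem norm (h : Cub w w') : ‖w‖ = 1 :=
  Complex.norm_eq_one_of_pow_eq_one h.cube (by norm_num)

theorem conj (h : Cub w w') : (starRingEnd ℂ) w = w' := by
  have h1 : w * (starRingEnd ℂ) w = 1 := by
    rw [Complex.mul_conj, Complex.normSq_eq_norm_sq, h.norm]
    norm_num
  exact mul_left_cancel₀ h.ne_zero (h1.trans h.m.symm)

theorem ex : ∃ w w' : ℂ, Cub w w' := by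
  refine ⟨(-1 + (√3 : ℝ) * Complex.I) / 2, (-1 - (√3 : ℝ) * Complex.I) / 2, ?_, ?_⟩
  · ring
  · have h3 : ((√3 : ℝ) : ℂ) ^ 2 = 3 := by
      rw [← Complex.ofReal_pow, Real.sq_sqrt (by norm_num)]
      norm_num
    linear_combination (-(1 : ℂ) / 4) * Complex.I ^ 2 * h3 - (3 / 4) * Complex.I_sq

end Cub

/-- the first polynomial -/
def FF (w w' p q : ℂ) : ℂ := p ^ 2 * q + w * (p * q ^ 2) + w'

/-- the second polynomial -/
def GG (w w' p q : ℂ) : ℂ := p ^ 2 * q ^ 2 + w * q + w' * p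

/-- the first resolvent -/
def AA (w w' p q r : ℂ) : ℂ := p + w * q + w' * r

/-- the second resolvent -/
def BB (w w' p q r : ℂ) : ℂ := p * q + w * (q * r) + w' * (r * p)

variable {w w' p q r z : ℂ}

theorem FF_eq (h1 : p * q * r = 1) : FF w w' p q = p * q * AA w w' p q r := by
  unfold FF AA
  linear_combination (-w') * h1

theorem GG_eq (h1 : p * q * r = 1) : GG w w' p q = p * q * BB w w' p q r := by
  unfold GG BB
  linear_combination (-w * q - w' * p) * h1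

theorem rel_A (hw : Cub w w') : (AA w' w p q r) ^ 2 =
    (p + q + r) * AA w w' p q r + 3 * w' * BB w w' p q r := by
  have hq := hw.q
  obtain rfl := hw.eq
  unfold AA BB
  linear_combination (-3*p*r+q^2+q*r+r^2) * hq

theorem rel_B (hw : Cub w w') (h1 : p * q * r = 1) : (BB w' w p q r) ^ 2 =
    (p * q + q * r + r * p) * BB w w' p q r + 3 * w * AA w w' p q r := by
  have hq := hw.q
  obtain rfl := hw.eq
  unfold AA BB
  linear_combination (p^2*r^2-2*p*q*r^2+q^2*r^2-3*q+3*r) * hq + (3*w*p-3*w*q-3*q+3*r) * h1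

theorem mirror (hw : Cub w w') : AA w w' p q r * BB w' w p q r - w * AA w' w p q r * BB w w' p q r =
    (1 - w) * ((p - q) * (q - r) * (p - r)) := by
  have hq := hw.q
  obtain rfl := hw.eq
  unfold AA BB
  linear_combination (-w*p*q*r+w*p*r^2+w*q^2*r-w*q*r^2+p^2*r+p*q^2-2*p*q*r-p*r^2-q^2*r+2*q*r^2) * hq

/-- the six exceptional curves, first kind -/
theorem kA (hw : Cub w w') (hz : z ^ 3 = 1) : FF w w' p q + z * GG w w' p q =
    (z ^ 2 * (p * q) + z * p + 1) * (z ^ 2 * (p * q) + w * (z * q) + w') := by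
  unfold FF GG
  linear_combination (-z * p ^ 2 * q ^ 2 - w * p * q ^ 2 - p ^ 2 * q) * hz - z ^ 2 * p * q * hw.s

/-- the six exceptional curves, second kind -/
theorem kB (hw : Cub w w') (hz : z ^ 3 = 1) : w * FF w' w p q + z * GG w' w p q =
    (z ^ 2 * (p * q) + z * q + 1) * (z ^ 2 * (p * q) + w * (z * p) + w') := by
  have h1 := hw.m
  have h2 := hw.sq
  unfold FF GG
  linear_combination (-z * p ^ 2 * q ^ 2 - w * p ^ 2 * q - p * q ^ 2) * hz - z ^ 2 * p * q * hw.s +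
    p * q ^ 2 * h1 + h2

theorem GG_tilde (hz : z ^ 3 = 1) : z * GG w w' p q =
    ((z * p) * (z * q)) ^ 2 + w * (z * q) + w' * (z * p) := by
  unfold GG
  linear_combination (-z * p ^ 2 * q ^ 2) * hz

theorem b1 (hw : Cub w w') (hK : p * q + p + 1 = 0) :
    p * ((p * q) ^ 2 + w * q + w' * p) = (p - w) ^ 2 * (p - w') := by
  have hq := hw.q
  obtain rfl := hw.eq
  linear_combination (w+p^2*q-p^2-p) * hK + (-w+p) * hq

theorem b2 (hw : Cub w w') (hK : p * q + p + 1 = 0) :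
    p * (p * q + w * q + w') = -(p - w') ^ 2 := by
  have hq := hw.q
  obtain rfl := hw.eq
  linear_combination (w+p) * hK + hq

theorem b1' (hw : Cub w w') (hK : p * q + q + 1 = 0) :
    q * ((p * q) ^ 2 + w * q + w' * p) = (q - w') ^ 2 * (q - w) := by
  have hq := hw.q
  obtain rfl := hw.eq
  linear_combination (-w+p*q^2-q^2-q-1) * hK + (w+q+1) * hq

theorem b2' (hw : Cub w w') (hK : p * q + q + 1 = 0) :
    q * (p * q + w * p + w') = -(q - w') ^ 2 := by
  have hq := hw.q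
  obtain rfl := hw.eq
  linear_combination (w+q) * hK + hq

/-- derivative of `FF` in a logarithmic direction -/
def DF (w p q a b : ℂ) : ℂ := (2 * a + b) * (p ^ 2 * q) + w * ((a + 2 * b) * (p * q ^ 2))

/-- derivative of `GG` in a logarithmic direction -/
def DG (w w' p q a b : ℂ) : ℂ := 2 * (a + b) * (p ^ 2 * q ^ 2) + w * (b * q) + w' * (a * p)

/-- numerator of the derivative of the quotient -/
def UU (w w' p q a b : ℂ) : ℂ := DF w p q a b * GG w w' p q - FF w w' p q * DG w w' p q a b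

theorem jac (hw : Cub w w') (a b c d : ℂ) :
    UU w w' p q a b * UU w' w p q c d - UU w' w p q a b * UU w w' p q c d =
      (a * d - b * c) * (w - w') * (p * q) *
        ((p ^ 3 * q ^ 3 + p ^ 3 + 1 - 3 * p ^ 2 * q) * (p ^ 3 * q ^ 3 + q ^ 3 + 1 - 3 * p * q ^ 2)) := by
  have hq := hw.q
  obtain rfl := hw.eq
  unfold UU DF DG FF GG
  linear_combination (4*w*p^5*q^6*a*d-4*w*p^5*q^6*b*c+4*w*p^5*q^3*a*d-4*w*p^5*q^3*b*c-2*w*p^4*q^7*a*d+2*w*p^4*q^7*b*c-16*w*p^4*q^4*a*d+16*w*p^4*q^4*b*c-2*w*p^4*q*a*d+2*w*p^4*q*b*c+6*w*p^3*q^5*a*d-6*w*p^3*q^5*b*c+6*w*p^3*q^2*a*d-6*w*p^3*q^2*b*c+4*w*p^2*q^3*a*d-4*w*p^2*q^3*b*c-2*w*p*q^4*a*d+2*w*p*q^4*b*c-2*w*p*q*a*d+2*w*p*q*b*c+2*p^5*q^6*a*d-2*p^5*q^6*b*c+2*p^5*q^3*a*d-2*p^5*q^3*b*c-p^4*q^7*a*d+p^4*q^7*b*c-8*p^4*q^4*a*d+8*p^4*q^4*b*c-p^4*q*a*d+p^4*q*b*c+3*p^3*q^5*a*d-3*p^3*q^5*b*c+3*p^3*q^2*a*d-3*p^3*q^2*b*c+2*p^2*q^3*a*d-2*p^2*q^3*b*c-p*q^4*a*d+p*q^4*b*c-p*q*a*d+p*q*b*c) * hq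

theorem prod3 (hw : Cub w w') (x y : ℂ) : x ^ 3 + y ^ 3 + 1 - 3 * x * y =
    (x + y + 1) * (w ^ 2 * x + w * y + 1) * (w' ^ 2 * x + w' * y + 1) := by
  have hq := hw.q
  obtain rfl := hw.eq
  linear_combination (-w^2*x^3-w^2*x^2*y-w^2*x^2-w*x^3-w*x^2*y-w*x^2+x^3-x^2-3*x*y-2*x+y^3+y^2) * hq

/-- rotation of the coordinates -/
theorem rot_F (hw : Cub w w') (h1 : p * q * r = 1) :
    p * FF w w' q r = w' * r * FF w w' p q := by
  have hq := hw.q
  obtain rfl := hw.eq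
  unfold FF
  linear_combination (r*q^2*p-r) * hq + (w*r+w*p+p) * h1

theorem rot_G (hw : Cub w w') (h1 : p * q * r = 1) :
    p * GG w w' q r = w' * r * GG w w' p q := by
  have hq := hw.q
  obtain rfl := hw.eq
  unfold GG
  linear_combination (r*q-r*p) * hq + (w*q*p+r*q+q*p) * h1

theorem rot_DF (hw : Cub w w') (h1 : p * q * r = 1) (a b c : ℂ) (hs : a + b + c = 0) :
    p * DF w q r b c = w' * r * (DF w p q a b + (c - a) * FF w w' p q) := by
  have hq := hw.q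
  obtain rfl := hw.eq
  unfold DF FF
  linear_combination (a*r+2*b*r*q^2*p+c*r*q^2*p-c*r) * hq + (w*a*p+w*b*r+w*b*p+2*w*c*r+w*c*p+a*p+b*p+c*p) * h1 + (w*r+w*p+p) * hs

theorem rot_DG (hw : Cub w w') (h1 : p * q * r = 1) (a b c : ℂ) (hs : a + b + c = 0) :
    p * DG w w' q r b c = w' * r * (DG w w' p q a b + (c - a) * GG w w' p q) := by
  have hq := hw.q
  obtain rfl := hw.eq
  unfold DG GG
  linear_combination (-a*r*q+b*r*q+c*r*q-c*r*p) * hq + (w*a*q*p+2*w*b*q*p+w*c*q*p+a*q*p+2*b*r*q+2*b*q*p+2*c*r*q+c*q*p) * h1 + (w*q*p+r*q+q*p) * hs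

end Pool.Agent.KS6_95.HM
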