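import Pool.Graph.R_pool_sql_team_seeded_2aa45f1a.Q79.HC.Mult

/-!
# Points with many branches

If `m` branches with pairwise different tangents pass through a point of a plane curve, then the
multiplicity of the curve at this point is at least `m`.
-/

set_option autoImplicit false

namespace Pool.Agent.KS6_95.HM

open MvPolynomial Pool.Agent.Chud Pool.Agent.Q79.HC

/-- the lowest form -/
theorem lowest {H : MvPolynomial (Fin 3) ℂ} {k : ℕ}
    (hk : ∀ x : Fin 3 →₀ ℕ, Finsupp.degree x < k → coeff x H = 0) (s : Fin 3 → Polynomial ℂ) :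
    ∃ R : Polynomial ℂ, aeval (fun i => Polynomial.X * s i) H = Polynomial.X ^ k * R ∧
      R.eval 0 = eval (fun i => (s i).eval 0) (homogeneousComponent k H) := by
  classical
  refine ⟨∑ x ∈ H.support, Polynomial.C (coeff x H) * (Polynomial.X ^ (Finsupp.degree x - k) *
    ∏ i, s i ^ x i), ?_, ?_⟩
  · rw [aeval_def, eval₂_eq', Finset.mul_sum]
    refine Finset.sum_congr rfl fun x hx => ?_
    have hx' : k ≤ Finsupp.degree x := by
      by_contra hlt
      push Not at hlt
      exact (mem_support_iff.1 hx) (hk x hlt)
    have h1 : ∏ i, (Polynomial.X * s i) ^ x i =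
        Polynomial.X ^ (Finsupp.degree x) * ∏ i, s i ^ x i := by
      simp_rw [mul_pow]
      rw [Finset.prod_mul_distrib, Finset.prod_pow_eq_pow_sum, Finsupp.degree_eq_sum]
    rw [h1]
    have h2 : (Polynomial.X : Polynomial ℂ) ^ (Finsupp.degree x) =
        Polynomial.X ^ k * Polynomial.X ^ (Finsupp.degree x - k) := by
      rw [← pow_add, Nat.add_sub_cancel' hx']
    rw [h2]
    change Polynomial.C (coeff x H) * _ = _
    ring
  · rw [Polynomial.eval_finsetSum, homogeneousComponent_apply, map_sum, Finset.sum_filter]
    refine Finset.sum_congr rfl fun x hx => ?_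
    have hx' : k ≤ Finsupp.degree x := by
      by_contra hlt
      push Not at hlt
      exact (mem_support_iff.1 hx) (hk x hlt)
    rw [Polynomial.eval_mul, Polynomial.eval_C, Polynomial.eval_mul, Polynomial.eval_pow,
      Polynomial.eval_X, Polynomial.eval_prod]
    split_ifs with h
    · rw [h, Nat.sub_self, pow_zero, one_mul, eval_monomial, Finsupp.prod_fintype]
      · simp
      · intro i; simp
    · rw [zero_pow (by omega), zero_mul, mul_zero]

theorem aeval_trans' {v : Fin 3 → ℂ} {F : MvPolynomial (Fin 3) ℂ} (s : Fin 3 → Polynomial ℂ) :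
    aeval s (Chud.trans v F) = aeval (fun i => s i + Polynomial.C (v i)) F := by
  have h : ((aeval s : MvPolynomial (Fin 3) ℂ →ₐ[ℂ] Polynomial ℂ)).comp (Chud.trans v) =
      aeval (fun i => s i + Polynomial.C (v i)) := by
    apply MvPolynomial.algHom_ext
    intro i
    simp [Chud.trans]
  exact DFunLike.congr_fun h F

theorem aeval_smul' {F : MvPolynomial (Fin 3) ℂ} {d : ℕ} (hF : F.IsHomogeneous d)
    (c : Polynomial ℂ) (u : Fin 3 → Polynomial ℂ) :
    aeval (fun i => c * u i) F = c ^ d * aeval u F := by
  rw [aeval_def, aeval_def, eval₂_eq', eval₂_eq', Finset.mul_sum]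
  refine Finset.sum_congr rfl fun x hx => ?_
  have hd' : x.degree = d := by
    have := hF (mem_support_iff.1 hx)
    rw [← this, Finsupp.degree_eq_weight_one]
    rfl
  have h1 : ∏ i, (c * u i) ^ x i = c ^ d * ∏ i, u i ^ x i := by
    simp_rw [mul_pow]
    rw [Finset.prod_mul_distrib, Finset.prod_pow_eq_pow_sum, ← hd', Finsupp.degree_eq_sum]
  rw [h1]
  ring

theorem aeval_comp' {F : MvPolynomial (Fin 3) ℂ} (p : Fin 3 → Polynomial ℂ) (q : Polynomial ℂ) :
    aeval (fun i => (p i).comp q) F = (aeval p F).comp q := by
  induction F using MvPolynomial.induction_on with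
  | C a => simp
  | add f g hf hg => simp only [map_add, hf, hg, Polynomial.add_comp]
  | mul_X f i hf => simp only [map_mul, hf, aeval_X, Polynomial.mul_comp]

/-- the lowest form of a form at a point does not depend on the coordinate in the direction of
the point -/
theorem lowest_inv {F : MvPolynomial (Fin 3) ℂ} {d k : ℕ} (hF : F.IsHomogeneous d) {v : Fin 3 → ℂ}
    (hk : ∀ x : Fin 3 →₀ ℕ, Finsupp.degree x < k → coeff x (Chud.trans v F) = 0) (u : Fin 3 → ℂ)
    (μ : ℂ) : eval (fun i => u i + μ * v i) (homogeneousComponent k (Chud.trans v F)) =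
      eval u (homogeneousComponent k (Chud.trans v F)) := by
  obtain ⟨R1, h1, h1'⟩ := lowest hk (fun i => Polynomial.C (u i) + Polynomial.C (μ * v i) +
    Polynomial.X * Polynomial.C (μ * u i))
  obtain ⟨R2, h2, h2'⟩ := lowest hk (fun i => Polynomial.C (u i))
  have h3 : aeval (fun i => Polynomial.X * (Polynomial.C (u i) + Polynomial.C (μ * v i) +
    Polynomial.X * Polynomial.C (μ * u i))) (Chud.trans v F) =
      (1 + Polynomial.C μ * Polynomial.X) ^ d *
        aeval (fun i => Polynomial.X * Polynomial.C (u i)) (Chud.trans v F) := by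
    rw [aeval_trans', aeval_trans', ← aeval_smul' hF]
    congr 2
    funext i
    simp only [Polynomial.C_mul]
    ring
  rw [h1, h2] at h3
  have h4 : R1 = (1 + Polynomial.C μ * Polynomial.X) ^ d * R2 := by
    apply mul_left_cancel₀ (pow_ne_zero k Polynomial.X_ne_zero)
    rw [h3]; ring
  have h5 := congrArg (Polynomial.eval 0) h4
  rw [h1', Polynomial.eval_mul, h2'] at h5
  simp only [Polynomial.eval_pow, Polynomial.eval_add, Polynomial.eval_one, Polynomial.eval_mul,
    Polynomial.eval_C, Polynomial.eval_X, mul_zero, add_zero, one_pow, one_mul, zero_mul] at h5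
  exact h5

/-- a branch gives a zero of the lowest form -/
theorem lowest_branch {F : MvPolynomial (Fin 3) ℂ} {d k : ℕ} (hF : F.IsHomogeneous d)
    {p : Fin 3 → Polynomial ℂ} (h0 : aeval p F = 0) {v w : Fin 3 → ℂ} {t c e e' : ℂ} (hc : c ≠ 0)
    (he' : e' ≠ 0) (h1 : ∀ i, (p i).eval t = c * v i)
    (h2 : ∀ i, (Polynomial.derivative (p i)).eval t = e * v i + e' * w i)
    (hk : ∀ x : Fin 3 →₀ ℕ, Finsupp.degree x < k → coeff x (Chud.trans v F) = 0) :
    eval w (homogeneousComponent k (Chud.trans v F)) = 0 := by
  set q : Fin 3 → Polynomial ℂ := fun i => (p i).comp (Polynomial.X + Polynomial.C t) with hq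
  have hq0 : aeval q F = 0 := by
    rw [hq, aeval_comp', h0, Polynomial.zero_comp]
  have hs : ∀ i, ∃ s : Polynomial ℂ, q i = Polynomial.C (c * v i) + Polynomial.X * s ∧
      s.eval 0 = e * v i + e' * w i := by
    intro i
    refine ⟨(q i).divX, ?_, ?_⟩
    · have h3 := Polynomial.divX_mul_X_add (q i)
      have h4 : (q i).coeff 0 = c * v i := by
        rw [Polynomial.coeff_zero_eq_eval_zero, hq]
        simp only [Polynomial.eval_comp, Polynomial.eval_add, Polynomial.eval_X, Polynomial.eval_C,
          zero_add]
        exact h1 i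
      rw [h4] at h3
      calc q i = (q i).divX * Polynomial.X + Polynomial.C (c * v i) := h3.symm
        _ = _ := by ring
    · have h3 := congrArg Polynomial.derivative (Polynomial.divX_mul_X_add (q i))
      have h4 := congrArg (Polynomial.eval 0) h3
      simp only [Polynomial.derivative_add, Polynomial.derivative_mul, Polynomial.derivative_X,
        Polynomial.derivative_C, Polynomial.eval_add, Polynomial.eval_mul, Polynomial.eval_X,
        mul_zero, zero_add, mul_one, Polynomial.eval_zero, add_zero] at h4
      rw [h4, hq, ← h2 i]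
      simp only [Polynomial.derivative_comp, Polynomial.derivative_add, Polynomial.derivative_X,
        Polynomial.derivative_C, add_zero, Polynomial.eval_mul, Polynomial.eval_comp,
        Polynomial.eval_add, Polynomial.eval_X, Polynomial.eval_C, zero_add, Polynomial.eval_one,
        one_mul, mul_one]
  choose s hs1 hs2 using hs
  have h3 : aeval (fun i => Polynomial.X * (Polynomial.C c⁻¹ * s i)) (Chud.trans v F) = 0 := by
    rw [aeval_trans']
    have h4 : q = fun i => Polynomial.C c * (Polynomial.X * (Polynomial.C c⁻¹ * s i) +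
        Polynomial.C (v i)) := by
      funext i
      rw [hs1, Polynomial.C_mul]
      have : Polynomial.C c * Polynomial.C c⁻¹ = (1 : Polynomial ℂ) := by
        rw [← Polynomial.C_mul, mul_inv_cancel₀ hc, Polynomial.C_1]
      linear_combination (-Polynomial.X * s i) * this
    rw [h4, aeval_smul' hF] at hq0
    refine (mul_eq_zero.1 hq0).resolve_left (pow_ne_zero _ ?_)
    rw [Ne, Polynomial.C_eq_zero]
    exact hc
  obtain ⟨R, hR1, hR2⟩ := lowest hk (fun i => Polynomial.C c⁻¹ * s i)
  rw [h3] at hR1
  have hR : R = 0 := (mul_eq_zero.1 hR1.symm).resolve_left (pow_ne_zero k Polynomial.X_ne_zero)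
  rw [hR, Polynomial.eval_zero] at hR2
  have h5 : (fun i => (Polynomial.C c⁻¹ * s i).eval 0) =
      fun i => (fun i => (c⁻¹ * e') * w i) i + (c⁻¹ * e) * v i := by
    funext i
    rw [Polynomial.eval_mul, Polynomial.eval_C, hs2]
    ring
  rw [h5, lowest_inv hF hk, eval_smul' (homogeneousComponent_isHomogeneous k _)] at hR2
  exact (mul_eq_zero.1 hR2.symm).resolve_left
    (pow_ne_zero _ (mul_ne_zero (inv_ne_zero hc) he'))

/-- **many branches with different tangents** -/
theorem mem_pow_of_branches {F : MvPolynomial (Fin 3) ℂ} {d : ℕ} (hF : F.IsHomogeneous d)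
    {p : Fin 3 → Polynomial ℂ} (h0 : aeval p F = 0) {v b1 b2 : Fin 3 → ℂ}
    (hspan : ∀ u : Fin 3 → ℂ, ∃ α x y : ℂ, u = fun i => (x * b1 i + y * b2 i) + α * v i)
    {S : Finset ℂ} {ξ : ℂ → ℂ} (hinj : Set.InjOn ξ S)
    (hb : ∀ t ∈ S, ∃ c e e' : ℂ, c ≠ 0 ∧ e' ≠ 0 ∧ (∀ i, (p i).eval t = c * v i) ∧
      ∀ i, (Polynomial.derivative (p i)).eval t = e * v i + e' * (b1 i + ξ t * b2 i)) :
    ∀ k ≤ S.card, F ∈ mI v ^ k := by
  classical
  intro k
  induction k with
  | zero => intro _; rw [pow_zero, Ideal.one_eq_top]; trivial
  | succ k ih =>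
    intro hkS
    have hFk := ih (by omega)
    rw [mI_pow_eq_comap, Ideal.mem_comap] at hFk ⊢
    change transE v F ∈ _ at hFk
    change transE v F ∈ _
    rw [transE_apply, mem_pow_idealOfVars_iff'] at hFk ⊢
    set H := Chud.trans v F with hH
    set Hk := homogeneousComponent k H with hHk
    have hhom : Hk.IsHomogeneous k := homogeneousComponent_isHomogeneous k _
    have hz : ∀ t ∈ S, eval (fun i => b1 i + ξ t * b2 i) Hk = 0 := by
      intro t ht
      obtain ⟨c, e, e', hc, he', h1, h2⟩ := hb t ht
      exact lowest_branch hF h0 hc he' h1 h2 hFk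
    -- the form on the line `b1 + X b2`
    have hline : ∀ z : ℂ, eval (fun i => b1 i + z * b2 i) Hk = 0 := by
      set p2 : Fin 3 → Polynomial ℂ := fun i => Polynomial.C (b1 i) +
        Polynomial.X * Polynomial.C (b2 i) with hp2
      have hdeg : (aeval p2 Hk).natDegree ≤ 1 * k := by
        apply natDegree_param _ hhom
        intro i
        change (Polynomial.C (b1 i) + Polynomial.X * Polynomial.C (b2 i) : Polynomial ℂ).natDegree ≤ 1
        compute_degree
      have hev : ∀ z : ℂ, (aeval p2 Hk).eval z = eval (fun i => b1 i + z * b2 i) Hk := by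
        intro z
        rw [eval_param]
        congr 2
        funext i
        rw [hp2]
        simp only [Polynomial.eval_add, Polynomial.eval_mul, Polynomial.eval_C, Polynomial.eval_X]
        try ring
      have hzero : aeval p2 Hk = 0 := by
        apply Polynomial.eq_zero_of_natDegree_lt_card_of_eval_eq_zero' (aeval p2 Hk) (S.image ξ)
        · intro y hy
          obtain ⟨t, ht, rfl⟩ := Finset.mem_image.1 hy
          rw [hev]
          exact hz t ht
        · rw [Finset.card_image_of_injOn hinj]
          omega
      intro z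
      rw [← hev, hzero, Polynomial.eval_zero]
    have hx : ∀ α x y : ℂ, x ≠ 0 → eval (fun i => (x * b1 i + y * b2 i) + α * v i) Hk = 0 := by
      intro α x y hx
      rw [hHk, hH, lowest_inv hF hFk (fun i => x * b1 i + y * b2 i) α]
      have h1 : (fun i => x * b1 i + y * b2 i) = fun i => x * (b1 i + (y / x) * b2 i) := by
        funext i
        field_simp
      rw [h1, eval_smul' (v := fun i => b1 i + (y / x) * b2 i)
        (homogeneousComponent_isHomogeneous k _)]
      rw [show eval (fun i => b1 i + (y / x) * b2 i) (homogeneousComponent k (Chud.trans v F)) = 0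
        from hline (y / x), mul_zero]
    have hall : ∀ α x y : ℂ, eval (fun i => (x * b1 i + y * b2 i) + α * v i) Hk = 0 := by
      intro α x y
      set p3 : Fin 3 → Polynomial ℂ := fun i => (Polynomial.X * Polynomial.C (b1 i) +
        Polynomial.C (y * b2 i)) + Polynomial.C (α * v i) with hp3
      have hev : ∀ z : ℂ, (aeval p3 Hk).eval z =
          eval (fun i => (z * b1 i + y * b2 i) + α * v i) Hk := by
        intro z
        rw [eval_param]
        congr 2
        funext i
        rw [hp3]
        simp only [Polynomial.eval_add, Polynomial.eval_mul, Polynomial.eval_C, Polynomial.eval_X]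
        try ring
      have hzero : aeval p3 Hk = 0 := by
        apply Polynomial.eq_zero_of_infinite_isRoot
        apply Set.Infinite.mono (s := ({0}ᶜ : Set ℂ))
        · intro z hz
          change (aeval p3 Hk).eval z = 0
          rw [hev]
          exact hx α z y hz
        · exact Set.Finite.infinite_compl (Set.finite_singleton _)
      rw [← hev, hzero, Polynomial.eval_zero]
    have hHk0 : Hk = 0 := by
      apply MvPolynomial.funext
      intro u
      obtain ⟨α, x, y, rfl⟩ := hspan u
      rw [hall, map_zero]
    intro x hxk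
    rcases Nat.lt_succ_iff_lt_or_eq.1 hxk with h | h
    · exact hFk x h
    · have h1 := coeff_homogeneousComponent k H x
      rw [if_pos h, ← hHk, hHk0, coeff_zero] at h1
      exact h1.symm

end Pool.Agent.KS6_95.HM
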