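import Pool.Agent.KS6_95.HM.Pts

/-!
# The parameters, continued
-/

set_option autoImplicit false

namespace Pool.Agent.KS6_95.HM

variable {w w' z : ℂ} {a : ℕ} {t : ℂ}

theorem cube_root_cases (hw : Cub w w') (h : z * w + w + 1 = 0) : z = w := by
  have hm := hw.m
  have hs := hw.s
  have h1 : w * (z - w) = 0 := by linear_combination h - hw.q
  exact sub_eq_zero.1 ((mul_eq_zero.1 h1).resolve_left hw.ne_zero)

/-- the exceptional parameters of the first kind -/
theorem m_ne (hw : Cub w w') (h3 : 3 ∣ a) (hz : z ^ 3 = 1) (h1 : t ≠ 1)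
    (hK : (z * t) * (z * t ^ a) + z * t + 1 = 0) : z * t ≠ w := by
  intro h
  have h2 : t ^ 3 = 1 := by
    have := congrArg (· ^ 3) h
    simp only [mul_pow, hz, one_mul, hw.cube] at this
    exact this
  have h4 := cube_a h3 h2
  rw [h4, mul_one, h] at hK
  have h5 : z = w := cube_root_cases hw (by linear_combination hK)
  apply h1
  rw [h5] at h
  exact mul_left_cancel₀ hw.ne_zero (by rw [h, mul_one])

/-- the exceptional parameters of the second kind -/
theorem m_ne' (hw : Cub w w') (h3 : 3 ∣ a) (hz : z ^ 3 = 1) (h1 : t ≠ 1)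
    (hK : (z * t) * (z * t ^ a) + z * t ^ a + 1 = 0) : z * t ^ a ≠ w := by
  intro h
  rw [h] at hK
  have hzt : z * t = w := by
    apply mul_right_cancel₀ hw.ne_zero
    linear_combination hK - hw.q
  have h2 : t ^ 3 = 1 := by
    have := congrArg (· ^ 3) hzt
    simp only [mul_pow, hz, one_mul, hw.cube] at this
    exact this
  have h4 := cube_a h3 h2
  rw [h4, mul_one] at h
  apply h1
  rw [h] at hzt
  exact mul_left_cancel₀ hw.ne_zero (by rw [hzt, mul_one])

theorem norm_z (hz : z ^ 3 = 1) : ‖z‖ = 1 :=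
  Complex.norm_eq_one_of_pow_eq_one hz (by norm_num)

theorem K_ne_of_NN (h3 : 3 ∣ a) (hz : z ^ 3 = 1) (h1 : t ≠ 1) (hN : t ^ NN a = 1) :
    (z * t) * (z * t ^ a) + z * t + 1 ≠ 0 := by
  intro h
  obtain ⟨n1, n2, -⟩ := norms_of_NN hN
  have u := unimod (u := z * t) (v := (z * t) * (z * t ^ a)) (by rw [norm_mul, norm_z hz, n1]; norm_num)
    (by simp only [norm_mul, norm_z hz, n1, n2]; norm_num) (by linear_combination h)
  rw [mul_pow, hz, one_mul] at u
  exact h1 (one_of_three h3 u hN)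

theorem K_ne_of_NN' (h3 : 3 ∣ a) (hz : z ^ 3 = 1) (h1 : t ≠ 1) (hN : t ^ NN a = 1) :
    (z * t) * (z * t ^ a) + z * t ^ a + 1 ≠ 0 := by
  intro h
  obtain ⟨n1, n2, -⟩ := norms_of_NN hN
  have m1 : ‖z * t ^ a‖ = 1 := by rw [norm_mul, norm_z hz, n2]; norm_num
  have m2 : ‖(z * t) * (z * t ^ a)‖ = 1 := by
    rw [norm_mul, m1, norm_mul, norm_z hz, n1]; norm_num
  have u := unimod m1 m2 (by linear_combination h)
  have v := unimod m2 m1 (by linear_combination h)
  rw [mul_pow (z * t), u, mul_one, mul_pow, hz, one_mul] at v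
  exact h1 (one_of_three h3 v hN)

theorem m_inj (hw : Cub w w') (h3 : 3 ∣ a) (hz : z ^ 3 = 1) {t' : ℂ} (h0 : t ≠ 0) (h1 : t ≠ 1)
    (h0' : t' ≠ 0) (hK : (z * t) * (z * t ^ a) + z * t + 1 = 0)
    (hK' : (z * t') * (z * t' ^ a) + z * t' + 1 = 0)
    (h : ((z * t' - w') * (z * t - w)) ^ 3 = ((z * t - w') * (z * t' - w)) ^ 3) : t' = t := by
  have hz0 : z ≠ 0 := by rintro rfl; simp at hz
  have hNt : t ^ NN a = 1 → False := fun hN => K_ne_of_NN h3 hz h1 hN hK
  have hP0 : z * t ≠ 0 := mul_ne_zero hz0 h0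
  have hP0' : z * t' ≠ 0 := mul_ne_zero hz0 h0'
  rcases rho_cases hw h with h | h | h
  · exact mul_left_cancel₀ hz0 h
  · exfalso
    apply hNt
    have e1 : z * t' ^ a = z * t := by
      apply mul_left_cancel₀ hP0'
      linear_combination hK' - h
    have e2 : t' ^ a = t := mul_left_cancel₀ hz0 e1
    refine NN_of' (s := t') ?_ e2
    have e3 : (z * t) * (z * t ^ a) * (z * t') = 1 := by
      have : z * t' * (z * t + 1) = -1 := by linear_combination h
      have h2 : (z * t) * (z * t ^ a) = -(z * t + 1) := by linear_combination hK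
      rw [h2]
      linear_combination (-1 : ℂ) * this
    linear_combination e3 - (t * t ^ a * t') * hz
  · exfalso
    apply hNt
    have e1 : z * t' = z * t ^ a := by
      apply mul_left_cancel₀ hP0
      linear_combination h - hK
    have e2 : t' = t ^ a := mul_left_cancel₀ hz0 e1
    refine NN_of (s := t' ^ a) ?_ (by rw [e2])
    rw [e2] at hK' ⊢
    have e3 : (z * t) * (z * t ^ a) * (z * (t ^ a) ^ a) = 1 := by
      have f1 : z * t * (z * t ^ a + 1) = -1 := by linear_combination hK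
      linear_combination (z * t) * hK' - f1
    linear_combination e3 - (t * t ^ a * (t ^ a) ^ a) * hz

theorem m_inj' (hw : Cub w w') (h3 : 3 ∣ a) (hz : z ^ 3 = 1) {t' : ℂ} (h0 : t ≠ 0) (h1 : t ≠ 1)
    (h0' : t' ≠ 0) (hK : (z * t) * (z * t ^ a) + z * t ^ a + 1 = 0)
    (hK' : (z * t') * (z * t' ^ a) + z * t' ^ a + 1 = 0)
    (h : ((z * t' ^ a - w') * (z * t ^ a - w)) ^ 3 =
      ((z * t ^ a - w') * (z * t' ^ a - w)) ^ 3) : t' = t := by
  have hz0 : z ≠ 0 := by rintro rfl; simp at hz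
  have hNt : t ^ NN a = 1 → False := fun hN => K_ne_of_NN' h3 hz h1 hN hK
  have hQ0 : z * t ^ a ≠ 0 := mul_ne_zero hz0 (pow_ne_zero _ h0)
  have hQ0' : z * t' ^ a ≠ 0 := mul_ne_zero hz0 (pow_ne_zero _ h0')
  rcases rho_cases hw h with h | h | h
  · -- `t' ^ a = t ^ a`
    apply mul_left_cancel₀ hz0
    apply mul_right_cancel₀ hQ0
    rw [h] at hK'
    linear_combination hK' - hK
  · exfalso
    apply hNt
    -- `Q Q' + Q' + 1 = 0`
    have e1 : z * t' = z * t ^ a := by
      apply mul_right_cancel₀ hQ0'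
      linear_combination hK' - h
    have e2 : t' = t ^ a := mul_left_cancel₀ hz0 e1
    refine NN_of (s := t' ^ a) ?_ (by rw [e2])
    have e3 : (z * t) * (z * t ^ a) * (z * t' ^ a) = 1 := by
      linear_combination (z * t' ^ a) * hK - h
    linear_combination e3 - (t * t ^ a * t' ^ a) * hz
  · exfalso
    apply hNt
    -- `Q Q' + Q + 1 = 0`
    have e1 : z * t' ^ a = z * t := by
      apply mul_right_cancel₀ hQ0
      linear_combination h - hK
    have e2 : t' ^ a = t := mul_left_cancel₀ hz0 e1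
    refine NN_of' (s := t') ?_ e2
    have e3 : (z * t) * (z * t ^ a) * (z * t') = 1 := by
      rw [e1] at hK'
      linear_combination (z * t ^ a) * hK' - hK
    linear_combination e3 - (t * t ^ a * t') * hz

/-! ### the triple points -/

theorem ne_zero_of_NN (hN : t ^ NN a = 1) : t ≠ 0 := by
  rintro rfl
  rw [zero_pow (by unfold NN; omega)] at hN
  exact zero_ne_one hN

theorem third_of_NN (hN : t ^ NN a = 1) : (t * t ^ a)⁻¹ = (t ^ a) ^ a := by
  apply inv_eq_of_mul_eq_one_right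
  rw [← hN, NN]
  ring

theorem a_NN (hN : t ^ NN a = 1) : ((t ^ a) ^ a) ^ a = t := by
  have h0 := ne_zero_of_NN hN
  have h1 : t ^ (a ^ 3 - 1 + 1) = t := by
    have : a ^ 3 - 1 = NN a * (a - 1) := by
      rcases Nat.eq_zero_or_pos a with h | h
      · subst h; rfl
      · obtain ⟨b, rfl⟩ : ∃ b, a = b + 1 := ⟨a - 1, by omega⟩
        have : (b + 1) ^ 3 = NN (b + 1) * b + 1 := by unfold NN; ring
        rw [this]; simp
    rw [pow_succ, this, pow_mul, hN, one_pow, one_mul]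
  rcases Nat.eq_zero_or_pos a with h | h
  · subst h
    have : t ^ 1 = 1 := hN
    rw [pow_one] at this
    simp [this]
  · rw [← pow_mul, ← pow_mul]
    rw [Nat.sub_add_cancel (Nat.one_le_pow _ _ h)] at h1
    rw [show a * (a * a) = a ^ 3 by ring]
    exact h1

/-- the three coordinates of a triple point are different -/
theorem distinct_of_NN (h3 : 3 ∣ a) (h1 : t ≠ 1) (hN : t ^ NN a = 1) :
    t ≠ t ^ a ∧ t ^ a ≠ (t ^ a) ^ a ∧ (t ^ a) ^ a ≠ t := by
  have key : ∀ s : ℂ, s ^ NN a = 1 → s = s ^ a → s = 1 := by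
    intro s hs h
    apply one_of_three h3 _ hs
    have h2 : s ^ NN a = s ^ 3 := by
      have h4 : s ^ NN a = (s ^ a) ^ a * s ^ a * s := by unfold NN; ring
      rw [h4, ← h, ← h]
      ring
    rw [← h2]; exact hs
  have hNa : (t ^ a) ^ NN a = 1 := by rw [← pow_mul, mul_comm, pow_mul, hN, one_pow]
  have hNaa : ((t ^ a) ^ a) ^ NN a = 1 := by rw [← pow_mul, mul_comm, pow_mul, hNa, one_pow]
  have h2 := a_NN hN
  refine ⟨fun h => h1 (key t hN h), ?_, ?_⟩
  · intro h
    have h4 := key _ hNa h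
    rw [h4, one_pow, one_pow] at h2
    exact h1 h2.symm
  · intro h
    have h4 := key _ hNaa (by rw [h2]; exact h)
    rw [h4, one_pow] at h2
    exact h1 h2.symm

/-- the two coordinates have different cubes -/
theorem cube_ne (hw : Cub w w') (h3 : 3 ∣ a) (h1 : t ≠ 1) (hN : t ^ NN a = 1) :
    (FF w w' t (t ^ a) / GG w w' t (t ^ a)) ^ 3 ≠ (FF w' w t (t ^ a) / GG w' w t (t ^ a)) ^ 3 := by
  intro h
  have h0 := ne_zero_of_NN hN
  have hpq : t * t ^ a ≠ 0 := mul_ne_zero h0 (pow_ne_zero _ h0)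
  have hG := GG_ne_of_NN hw h3 h1 hN
  have hG' := GG_ne_of_NN hw.symm h3 h1 hN
  obtain ⟨n1, n2, n3⟩ := norms_of_NN hN
  have hr := pqr (a := a) h0
  obtain ⟨d1, d2, d4⟩ := distinct_of_NN h3 h1 hN
  rw [← third_of_NN hN] at d2 d4
  rw [GG_eq hr] at hG hG'
  rw [GG_eq hr, GG_eq hr, FF_eq hr, FF_eq hr, mul_div_mul_left _ _ hpq,
    mul_div_mul_left _ _ hpq] at h
  set r := (t * t ^ a)⁻¹
  set q := t ^ a
  have hB := right_ne_zero_of_mul hG
  have hB' := right_ne_zero_of_mul hG'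
  have cj : ∀ x y u : ℂ, ‖x‖ = 1 → x * y * u = 1 → (starRingEnd ℂ) x = y * u := by
    intro x y u hx hxy
    have hx0 : x ≠ 0 := by intro h; rw [h] at hx; simp at hx
    apply mul_left_cancel₀ hx0
    rw [Complex.mul_conj, Complex.normSq_eq_norm_sq, hx, ← mul_assoc, hxy]
    norm_num
  have c1 := cj t q r n1 hr
  have c2 := cj q r t n2 (by linear_combination hr)
  have c3 := cj r t q n3 (by linear_combination hr)
  have cA : (starRingEnd ℂ) (AA w w' t q r) = w * BB w' w t q r := by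
    unfold AA BB
    rw [map_add, map_add, map_mul, map_mul, hw.conj, hw.symm.conj, c1, c2, c3]
    linear_combination (-(q * r)) * hw.m - (r * t) * hw.sq
  have cB : (starRingEnd ℂ) (BB w w' t q r) = w' * AA w' w t q r := by
    unfold AA BB
    simp only [map_add, map_mul, hw.conj, hw.symm.conj, c1, c2, c3]
    linear_combination (r + w' * t + w * q) * hr - r * hw.m - q * hw.symm.sq
  have hA' : AA w' w t q r ≠ 0 := by
    intro h4
    rw [h4, mul_zero] at cB
    exact hB ((map_eq_zero _).1 cB)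
  set A := AA w w' t q r with hAd
  set B := BB w w' t q r with hBd
  set A' := AA w' w t q r with hAd'
  set B' := BB w' w t q r with hBd'
  have hw0 := hw.ne_zero
  have hw0' := hw.symm.ne_zero
  have e1 : (starRingEnd ℂ) (A / B) * (A' / B') = w' := by
    rw [map_div₀, cA, cB]
    field_simp
    rw [hw.symm.sq]
  have e2 : ‖A / B‖ * ‖A' / B'‖ = 1 := by
    have := congrArg norm e1
    rwa [norm_mul, Complex.norm_conj, hw.symm.norm] at this
  have e3 : ‖A / B‖ ^ 3 = ‖A' / B'‖ ^ 3 := by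
    have := congrArg norm h
    rwa [norm_pow, norm_pow] at this
  have e4 : ‖A / B‖ = ‖A' / B'‖ :=
    (pow_left_inj₀ (norm_nonneg _) (norm_nonneg _) (by norm_num)).1 e3
  have e5 : ‖A / B‖ = 1 := by
    rw [← e4] at e2
    nlinarith [norm_nonneg (A / B)]
  have e6 : (starRingEnd ℂ) (A / B) * (A / B) = 1 := by
    rw [mul_comm, Complex.mul_conj, Complex.normSq_eq_norm_sq, e5]; norm_num
  have e7 : (starRingEnd ℂ) (A / B) ≠ 0 := left_ne_zero_of_mul_eq_one e6
  have e8 : A' / B' = w' * (A / B) := by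
    apply mul_left_cancel₀ e7
    rw [e1]
    linear_combination (-w') * e6
  have e9 : A * B' - w * A' * B = 0 := by
    rw [div_eq_iff hB'] at e8
    rw [e8]
    have : w' * (A / B) * B' * B = w' * A * B' := by field_simp
    linear_combination (-w) * this - A * B' * hw.m
  rw [hAd, hBd', hAd', hBd, mirror hw] at e9
  have n2 : 1 - w ≠ 0 := sub_ne_zero.2 (Ne.symm hw.ne_one)
  have := mul_ne_zero n2 (mul_ne_zero (mul_ne_zero (sub_ne_zero.2 d1) (sub_ne_zero.2 d2))
    (sub_ne_zero.2 d4.symm))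
  exact this e9

/-- the fibres of the triple points -/
theorem fibre_NN (hw : Cub w w') (h3 : 3 ∣ a) {t' : ℂ} (h1 : t ≠ 1) (hN : t ^ NN a = 1)
    (h1' : t' ≠ 1) (hN' : t' ^ NN a = 1)
    (e1 : FF w w' t (t ^ a) / GG w w' t (t ^ a) = FF w w' t' (t' ^ a) / GG w w' t' (t' ^ a))
    (e2 : FF w' w t (t ^ a) / GG w' w t (t ^ a) = FF w' w t' (t' ^ a) / GG w' w t' (t' ^ a)) :
    t' = t ∨ t' = t ^ a ∨ t' = (t ^ a) ^ a := by
  have key : ∀ s : ℂ, s ≠ 1 → s ^ NN a = 1 → ∀ f g : ℂ,
      f = FF w w' s (s ^ a) / GG w w' s (s ^ a) → g = FF w' w s (s ^ a) / GG w' w s (s ^ a) →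
      g ^ 2 * (s * s ^ a + s ^ a * (s * s ^ a)⁻¹ + (s * s ^ a)⁻¹ * s + 3 * w * f) =
        (s + s ^ a + (s * s ^ a)⁻¹) * f + 3 * w' := by
    intro s hs1 hsN f g hf hg
    have h0 := ne_zero_of_NN hsN
    have hpq : s * s ^ a ≠ 0 := mul_ne_zero h0 (pow_ne_zero _ h0)
    have hG := GG_ne_of_NN hw h3 hs1 hsN
    have hG' := GG_ne_of_NN hw.symm h3 hs1 hsN
    have hr := pqr (a := a) h0
    rw [GG_eq hr] at hG hG' hf hg
    rw [FF_eq hr, mul_div_mul_left _ _ hpq] at hf hg
    have hB := right_ne_zero_of_mul hG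
    have hB' := right_ne_zero_of_mul hG'
    have r1 := rel_A hw (p := s) (q := s ^ a) (r := (s * s ^ a)⁻¹)
    have r2 := rel_B hw hr
    set r := (s * s ^ a)⁻¹
    set q := s ^ a
    rw [eq_div_iff hB] at hf
    rw [eq_div_iff hB'] at hg
    apply mul_left_cancel₀ hB
    rw [← hf, ← hg] at r1
    rw [← hf] at r2
    linear_combination r1 - g ^ 2 * r2
  have k1 := key t h1 hN _ _ rfl rfl
  have k2 := key t' h1' hN' _ _ e1 e2
  have key' : ∀ s : ℂ, s ≠ 1 → s ^ NN a = 1 → ∀ f g : ℂ,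
      f = FF w w' s (s ^ a) / GG w w' s (s ^ a) → g = FF w' w s (s ^ a) / GG w' w s (s ^ a) →
      f ^ 2 * (s * s ^ a + s ^ a * (s * s ^ a)⁻¹ + (s * s ^ a)⁻¹ * s + 3 * w' * g) =
        (s + s ^ a + (s * s ^ a)⁻¹) * g + 3 * w := by
    intro s hs1 hsN f g hf hg
    have h0 := ne_zero_of_NN hsN
    have hpq : s * s ^ a ≠ 0 := mul_ne_zero h0 (pow_ne_zero _ h0)
    have hG := GG_ne_of_NN hw h3 hs1 hsN
    have hG' := GG_ne_of_NN hw.symm h3 hs1 hsN
    have hr := pqr (a := a) h0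
    rw [GG_eq hr] at hG hG' hf hg
    rw [FF_eq hr, mul_div_mul_left _ _ hpq] at hf hg
    have hB := right_ne_zero_of_mul hG
    have hB' := right_ne_zero_of_mul hG'
    have r1 := rel_A hw.symm (p := s) (q := s ^ a) (r := (s * s ^ a)⁻¹)
    have r2 := rel_B hw.symm hr
    set r := (s * s ^ a)⁻¹
    set q := s ^ a
    rw [eq_div_iff hB] at hf
    rw [eq_div_iff hB'] at hg
    apply mul_left_cancel₀ hB'
    rw [← hf, ← hg] at r1
    rw [← hg] at r2
    linear_combination r1 - f ^ 2 * r2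
  have k3 := key' t h1 hN _ _ rfl rfl
  have k4 := key' t' h1' hN' _ _ e1 e2
  have hc := cube_ne hw h3 h1 hN
  set f := FF w w' t (t ^ a) / GG w w' t (t ^ a)
  set g := FF w' w t (t ^ a) / GG w' w t (t ^ a)
  have hr := pqr (a := a) (ne_zero_of_NN hN)
  have hr' := pqr (a := a) (ne_zero_of_NN hN')
  rw [← third_of_NN hN]
  set r := (t * t ^ a)⁻¹
  set r' := (t' * t' ^ a)⁻¹
  have s2 : t' * t' ^ a + t' ^ a * r' + r' * t' = t * t ^ a + t ^ a * r + r * t := by
    have : (g ^ 3 - f ^ 3) * ((t' * t' ^ a + t' ^ a * r' + r' * t') -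
        (t * t ^ a + t ^ a * r + r * t)) = 0 := by
      linear_combination g * (k2 - k1) - f * (k4 - k3)
    exact sub_eq_zero.1 ((mul_eq_zero.1 this).resolve_left (sub_ne_zero.2 (Ne.symm hc)))
  have s1 : t' + t' ^ a + r' = t + t ^ a + r := by
    have e3 : f * ((t' + t' ^ a + r') - (t + t ^ a + r)) = 0 := by
      linear_combination k1 - k2 + g ^ 2 * s2
    have e4 : g * ((t' + t' ^ a + r') - (t + t ^ a + r)) = 0 := by
      linear_combination k3 - k4 + f ^ 2 * s2
    rcases mul_eq_zero.1 e3 with h | h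
    · rcases mul_eq_zero.1 e4 with h' | h'
      · exact absurd (by rw [h, h']) hc
      · exact sub_eq_zero.1 h'
    · exact sub_eq_zero.1 h
  have hp : (t' - t) * ((t' - t ^ a) * (t' - r)) = 0 := by
    linear_combination t' ^ 2 * s1 - t' * s2 + hr' - hr
  rcases mul_eq_zero.1 hp with h | h
  · exact Or.inl (sub_eq_zero.1 h)
  · rcases mul_eq_zero.1 h with h | h
    · exact Or.inr (Or.inl (sub_eq_zero.1 h))
    · exact Or.inr (Or.inr (sub_eq_zero.1 h))

end Pool.Agent.KS6_95.HM
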