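import Mathlib

/-!
# Trinomials with unimodular coefficients
-/

set_option autoImplicit false

namespace Pool.Agent.KS6_95.HM

open Polynomial

/-- a trinomial -/
noncomputable def tri (n k : ℕ) (b c e : ℂ) : ℂ[X] := C b * X ^ n + C c * X ^ k + C e

theorem eval_tri (n k : ℕ) (b c e t : ℂ) : (tri n k b c e).eval t = b * t ^ n + c * t ^ k + e := by
  simp [tri]

theorem eval_tri' (n k : ℕ) (b c e t : ℂ) :
    t * (derivative (tri n k b c e)).eval t = n * (b * t ^ n) + k * (c * t ^ k) := by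
  simp only [tri, derivative_add, derivative_mul, derivative_C, derivative_X_pow, eval_add,
    eval_mul, eval_C, eval_pow, eval_X, zero_mul, zero_add, add_zero, map_natCast, eval_natCast]
  rcases n with _ | n <;> rcases k with _ | k <;> simp <;> ring

theorem tri_simple {n k : ℕ} (hk : 0 < k) (hkn : k < n) {b c e : ℂ} (hb : ‖b‖ = 1)
    (hc : ‖c‖ = 1) (he : ‖e‖ = 1) {t : ℂ} (h : (tri n k b c e).eval t = 0) :
    (derivative (tri n k b c e)).eval t ≠ 0 := by
  intro h'
  have h1 := eval_tri' n k b c e t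
  rw [h', mul_zero] at h1
  rw [eval_tri] at h
  obtain ⟨x, hx⟩ : ∃ x, x = b * t ^ n := ⟨_, rfl⟩
  obtain ⟨y, hy⟩ : ∃ y, y = c * t ^ k := ⟨_, rfl⟩
  rw [← hx, ← hy] at h1 h
  have hn : (0 : ℝ) < n := by
    have : 0 < n := by omega
    exact_mod_cast this
  have hkn' : (k : ℝ) < n := by exact_mod_cast hkn
  have nx : ‖x‖ = ‖t‖ ^ n := by rw [hx, norm_mul, hb, one_mul, norm_pow]
  have ny : ‖y‖ = ‖t‖ ^ k := by rw [hy, norm_mul, hc, one_mul, norm_pow]
  have e1 : (n : ℝ) * ‖x‖ = k * ‖y‖ := by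
    have : (n : ℂ) * x = -(k * y) := by linear_combination -h1
    have := congrArg norm this
    rwa [norm_neg, norm_mul, norm_mul, Complex.norm_natCast, Complex.norm_natCast] at this
  have e2 : ((n : ℝ) - k) * ‖y‖ = n := by
    have : ((n : ℂ) - k) * y = -(n * e) := by linear_combination (n : ℂ) * h + h1
    have h2 := congrArg norm this
    rw [norm_neg, norm_mul, norm_mul, Complex.norm_natCast, he, mul_one] at h2
    have h3 : ‖(n : ℂ) - k‖ = (n : ℝ) - k := by
      have : (n : ℂ) - k = (((n : ℝ) - k : ℝ) : ℂ) := by push_cast; ring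
      rw [this, Complex.norm_real, Real.norm_of_nonneg (by linarith)]
    rwa [h3] at h2
  have hk0 : (0 : ℝ) ≤ k := Nat.cast_nonneg k
  have ny0 : 0 ≤ ‖y‖ := norm_nonneg _
  have nx0 : 0 ≤ ‖x‖ := norm_nonneg _
  have y1 : 1 ≤ ‖y‖ := by
    by_contra hlt
    push Not at hlt
    nlinarith
  have t1 : 1 ≤ ‖t‖ := by
    by_contra hlt
    push Not at hlt
    have : ‖y‖ < 1 := by
      rw [ny]
      exact pow_lt_one₀ (norm_nonneg _) hlt (by omega)
    linarith
  have xy : ‖y‖ ≤ ‖x‖ := by
    rw [nx, ny]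
    exact pow_le_pow_right₀ t1 hkn.le
  nlinarith

theorem natDegree_tri {n k : ℕ} (hkn : k < n) {b c e : ℂ} (hb : ‖b‖ = 1) :
    (tri n k b c e).natDegree = n := by
  have hb0 : b ≠ 0 := by rintro rfl; simp at hb
  unfold tri
  compute_degree
  · rw [if_neg (by omega), if_neg (by omega), add_zero, add_zero]
    exact hb0
  all_goals omega

theorem card_roots_tri {n k : ℕ} (hk : 0 < k) (hkn : k < n) {b c e : ℂ} (hb : ‖b‖ = 1)
    (hc : ‖c‖ = 1) (he : ‖e‖ = 1) : (tri n k b c e).roots.toFinset.card = n := by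
  have h0 : tri n k b c e ≠ 0 := by
    intro h
    have h1 := natDegree_tri (k := k) hkn (c := c) (e := e) hb
    rw [h, natDegree_zero] at h1
    omega
  have hnd : (tri n k b c e).roots.Nodup := by
    rw [Multiset.nodup_iff_count_le_one]
    intro t
    rw [count_roots]
    by_contra hlt
    push Not at hlt
    have h1 := (one_lt_rootMultiplicity_iff_isRoot h0).1 hlt
    exact tri_simple hk hkn hb hc he h1.1 h1.2
  rw [Multiset.toFinset_card_of_nodup hnd]
  have h2 := (IsAlgClosed.splits (tri n k b c e)).natDegree_eq_card_roots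
  rw [← h2, natDegree_tri hkn hb]

end Pool.Agent.KS6_95.HM
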