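import Pool.Graph.R_pool_sql_team_seeded_2aa45f1a.Q79.HC.Curve
import Pool.Agent.KS6_95.HM.Heavy
import Pool.Agent.KS6_95.HM.Pts2
import Pool.Agent.KS6_95.HM.Tri

/-!
# The curve and its points
-/

set_option autoImplicit false

namespace Pool.Agent.KS6_95.HM

open MvPolynomial Pool.Agent.Chud Pool.Agent.Q79.HC

/-- the first polynomial along the curve -/
noncomputable def FP (w w' : ℂ) (a : ℕ) : Polynomial ℂ :=
  Polynomial.X ^ (a + 2) + Polynomial.C w * Polynomial.X ^ (2 * a + 1) + Polynomial.C w'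

/-- the second polynomial along the curve -/
noncomputable def GP (w w' : ℂ) (a : ℕ) : Polynomial ℂ :=
  Polynomial.X ^ (2 * a + 2) + Polynomial.C w * Polynomial.X ^ a + Polynomial.C w' * Polynomial.X

theorem eval_FP (w w' : ℂ) (a : ℕ) (t : ℂ) : (FP w w' a).eval t = FF w w' t (t ^ a) := by
  simp only [FP, Polynomial.eval_add, Polynomial.eval_mul, Polynomial.eval_pow, Polynomial.eval_X,
    Polynomial.eval_C, FF]
  ring

theorem eval_GP (w w' : ℂ) (a : ℕ) (t : ℂ) : (GP w w' a).eval t = GG w w' t (t ^ a) := by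
  simp only [GP, Polynomial.eval_add, Polynomial.eval_mul, Polynomial.eval_pow, Polynomial.eval_X,
    Polynomial.eval_C, GG]
  ring

theorem deriv_FP (w w' : ℂ) (a : ℕ) (t : ℂ) :
    t * (Polynomial.derivative (FP w w' a)).eval t = DF w t (t ^ a) 1 a := by
  simp only [FP, Polynomial.derivative_add, Polynomial.derivative_mul, Polynomial.derivative_C,
    Polynomial.derivative_X_pow, Polynomial.eval_add, Polynomial.eval_mul, Polynomial.eval_C,
    Polynomial.eval_pow, Polynomial.eval_X, zero_mul, zero_add, add_zero, map_natCast,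
    Polynomial.eval_natCast, DF]
  rw [show a + 2 - 1 = a + 1 by omega, show 2 * a + 1 - 1 = 2 * a by omega]
  push_cast
  ring

theorem deriv_GP (w w' : ℂ) (a : ℕ) (t : ℂ) :
    t * (Polynomial.derivative (GP w w' a)).eval t = DG w w' t (t ^ a) 1 a := by
  simp only [GP, Polynomial.derivative_add, Polynomial.derivative_mul, Polynomial.derivative_C,
    Polynomial.derivative_X_pow, Polynomial.derivative_X, Polynomial.eval_add, Polynomial.eval_mul,
    Polynomial.eval_C, Polynomial.eval_pow, Polynomial.eval_X, zero_mul, zero_add, add_zero,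
    map_natCast, Polynomial.eval_natCast, DG, Polynomial.eval_one, mul_one]
  rw [show 2 * a + 2 - 1 = 2 * a + 1 by omega]
  rcases a with _ | a
  · simp; ring
  · rw [show a + 1 - 1 = a by omega]
    push_cast
    ring

/-- the parametrisation -/
noncomputable def pp (w w' : ℂ) (a : ℕ) : Fin 3 → Polynomial ℂ :=
  ![FP w w' a * GP w' w a, FP w' w a * GP w w' a, GP w w' a * GP w' w a]

theorem natDegree_FP (w w' : ℂ) (a : ℕ) : (FP w w' a).natDegree ≤ 2 * a + 2 := by
  unfold FP
  compute_degree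
  omega

theorem natDegree_GP (w w' : ℂ) (a : ℕ) : (GP w w' a).natDegree ≤ 2 * a + 2 := by
  unfold GP
  compute_degree
  omega

theorem natDegree_pp (w w' : ℂ) (a : ℕ) (i : Fin 3) : (pp w w' a i).natDegree ≤ 4 * a + 4 := by
  have h1 := natDegree_FP w w' a
  have h2 := natDegree_FP w' w a
  have h3 := natDegree_GP w w' a
  have h4 := natDegree_GP w' w a
  fin_cases i
  · exact Polynomial.natDegree_mul_le.trans (by omega)
  · exact Polynomial.natDegree_mul_le.trans (by omega)
  · exact Polynomial.natDegree_mul_le.trans (by omega)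

variable {F : MvPolynomial (Fin 3) ℂ} {d : ℕ}

/-- many branches, at a point of the projective plane -/
theorem mem_pow_mk (hF : F.IsHomogeneous d) {p : Fin 3 → Polynomial ℂ} (h0 : aeval p F = 0)
    {v b1 b2 : Fin 3 → ℂ} (hv : v ≠ 0)
    (hspan : ∀ u : Fin 3 → ℂ, ∃ α x y : ℂ, u = fun i => (x * b1 i + y * b2 i) + α * v i)
    {S : Finset ℂ} {ξ : ℂ → ℂ} (hinj : Set.InjOn ξ S)
    (hb : ∀ t ∈ S, ∃ c e e' : ℂ, c ≠ 0 ∧ e' ≠ 0 ∧ (∀ i, (p i).eval t = c * v i) ∧
      ∀ i, (Polynomial.derivative (p i)).eval t = e * v i + e' * (b1 i + ξ t * b2 i)) :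
    F ∈ mI (Projectivization.mk ℂ v hv).rep ^ S.card := by
  obtain ⟨m, hm⟩ := Projectivization.exists_smul_eq_mk_rep ℂ v hv
  rw [← hm]
  have hm0 : (m : ℂ) ≠ 0 := m.ne_zero
  refine mem_pow_of_branches hF h0 (v := m • v) (b1 := b1) (b2 := b2) ?_ hinj ?_ _ le_rfl
  · intro u
    obtain ⟨α, x, y, hu⟩ := hspan u
    refine ⟨α * (m : ℂ)⁻¹, x, y, ?_⟩
    rw [hu]
    funext i
    have : (m • v) i = (m : ℂ) * v i := rfl
    rw [this]
    field_simp
  · intro t ht
    obtain ⟨c, e, e', hc, he', h1, h2⟩ := hb t ht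
    refine ⟨c * (m : ℂ)⁻¹, e * (m : ℂ)⁻¹, e', mul_ne_zero hc (inv_ne_zero hm0), he', ?_, ?_⟩
    · intro i
      have : (m • v) i = (m : ℂ) * v i := rfl
      rw [this, h1]
      field_simp
    · intro i
      have : (m • v) i = (m : ℂ) * v i := rfl
      rw [this, h2]
      field_simp

/-- points at infinity -/
theorem v100_ne : (![1, 0, 0] : Fin 3 → ℂ) ≠ 0 := by
  intro h
  have := congrFun h 0
  simp at this

theorem v010_ne : (![0, 1, 0] : Fin 3 → ℂ) ≠ 0 := by
  intro h
  have := congrFun h 1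
  simp at this

theorem v1_ne (x y : ℂ) : (![x, y, 1] : Fin 3 → ℂ) ≠ 0 := by
  intro h
  have := congrFun h 2
  simp at this

/-- the parameters of the points at infinity -/
noncomputable def S1 (w w' : ℂ) (a : ℕ) : Finset ℂ := (tri (2 * a + 1) (a - 1) 1 w w').roots.toFinset.erase 1

variable {w w' z : ℂ} {a : ℕ}

theorem card_S1 (hw : Cub w w') (ha : 3 ≤ a) : 2 * a ≤ (S1 w w' a).card := by
  have h1 := card_roots_tri (n := 2 * a + 1) (k := a - 1) (b := 1) (c := w) (e := w') (by omega)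
    (by omega) (by norm_num) hw.norm hw.symm.norm
  have h2 := Finset.pred_card_le_card_erase (s := (tri (2 * a + 1) (a - 1) 1 w w').roots.toFinset)
    (a := 1)
  unfold S1
  omega

theorem GP_eq (ha : 3 ≤ a) : GP w w' a = Polynomial.X * tri (2 * a + 1) (a - 1) 1 w w' := by
  obtain ⟨b, rfl⟩ : ∃ b, a = b + 1 := ⟨a - 1, by omega⟩
  unfold GP tri
  rw [Nat.add_sub_cancel, Polynomial.C_1]
  ring

theorem mem_S1 (hw : Cub w w') (ha : 3 ≤ a) {t : ℂ} (ht : t ∈ S1 w w' a) :
    t ≠ 0 ∧ t ≠ 1 ∧ GG w w' t (t ^ a) = 0 ∧ (Polynomial.derivative (GP w w' a)).eval t ≠ 0 := by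
  unfold S1 at ht
  rw [Finset.mem_erase, Multiset.mem_toFinset, Polynomial.mem_roots'] at ht
  obtain ⟨h1, -, h2⟩ := ht
  have h2 : (tri (2 * a + 1) (a - 1) 1 w w').eval t = 0 := h2
  have h0 : t ≠ 0 := by
    rintro rfl
    rw [eval_tri, zero_pow (by omega), zero_pow (by omega)] at h2
    simp only [mul_zero, zero_add] at h2
    exact hw.symm.ne_zero h2
  refine ⟨h0, h1, ?_, ?_⟩
  · rw [← eval_GP, GP_eq ha, Polynomial.eval_mul, h2, mul_zero]
  · rw [GP_eq ha, Polynomial.derivative_mul, Polynomial.eval_add, Polynomial.eval_mul,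
      Polynomial.eval_mul, h2, mul_zero, zero_add, Polynomial.eval_X]
    exact mul_ne_zero h0 (tri_simple (by omega) (by omega) (by norm_num) hw.norm hw.symm.norm h2)

theorem mult_100 (hw : Cub w w') (h3 : 3 ∣ a) (ha : 3 ≤ a) (hF : F.IsHomogeneous d)
    (h0 : aeval (pp w w' a) F = 0) :
    F ∈ mI (Projectivization.mk ℂ (![1, 0, 0] : Fin 3 → ℂ) v100_ne).rep ^ (S1 w w' a).card := by
  refine mem_pow_mk hF h0 v100_ne (b1 := ![0, 0, 1]) (b2 := ![0, 1, 0]) ?_
    (ξ := fun t => FF w' w t (t ^ a) / GG w' w t (t ^ a)) ?_ ?_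
  · intro u
    refine ⟨u 0, u 2, u 1, ?_⟩
    funext i
    fin_cases i <;> simp
  · intro t ht t' ht' h
    obtain ⟨h1, h2, h4, -⟩ := mem_S1 hw ha ht
    obtain ⟨h1', h2', h4', -⟩ := mem_S1 hw ha ht'
    exact (inf_inj hw h3 h1 h2 h1' h2' h4 h4' h).symm
  · intro t ht
    obtain ⟨h1, h2, h4, h5⟩ := mem_S1 hw ha ht
    have h6 := inf_ne hw h3 h1 h2 h4
    have h7 := inf_F hw h3 h1 h2 h4
    refine ⟨FF w w' t (t ^ a) * GG w' w t (t ^ a), (Polynomial.derivative (FP w w' a)).eval t *
      GG w' w t (t ^ a) + FF w w' t (t ^ a) * (Polynomial.derivative (GP w' w a)).eval t,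
      (Polynomial.derivative (GP w w' a)).eval t * GG w' w t (t ^ a), mul_ne_zero h7 h6,
      mul_ne_zero h5 h6, ?_, ?_⟩
    · intro i
      fin_cases i
      · simp [pp, eval_FP, eval_GP]
      · simp [pp, eval_FP, eval_GP, h4]
      · simp [pp, eval_FP, eval_GP, h4]
    · intro i
      fin_cases i
      · simp [pp, eval_FP, eval_GP, Polynomial.derivative_mul]
      · simp [pp, eval_FP, eval_GP, Polynomial.derivative_mul, h4]
        field_simp
      · simp [pp, eval_FP, eval_GP, Polynomial.derivative_mul, h4]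

theorem mult_010 (hw : Cub w w') (h3 : 3 ∣ a) (ha : 3 ≤ a) (hF : F.IsHomogeneous d)
    (h0 : aeval (pp w w' a) F = 0) :
    F ∈ mI (Projectivization.mk ℂ (![0, 1, 0] : Fin 3 → ℂ) v010_ne).rep ^ (S1 w' w a).card := by
  refine mem_pow_mk hF h0 v010_ne (b1 := ![0, 0, 1]) (b2 := ![1, 0, 0]) ?_
    (ξ := fun t => FF w w' t (t ^ a) / GG w w' t (t ^ a)) ?_ ?_
  · intro u
    refine ⟨u 1, u 2, u 0, ?_⟩
    funext i
    fin_cases i <;> simp
  · intro t ht t' ht' h
    obtain ⟨h1, h2, h4, -⟩ := mem_S1 hw.symm ha ht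
    obtain ⟨h1', h2', h4', -⟩ := mem_S1 hw.symm ha ht'
    exact (inf_inj hw.symm h3 h1 h2 h1' h2' h4 h4' h).symm
  · intro t ht
    obtain ⟨h1, h2, h4, h5⟩ := mem_S1 hw.symm ha ht
    have h6 := inf_ne hw.symm h3 h1 h2 h4
    have h7 := inf_F hw.symm h3 h1 h2 h4
    refine ⟨FF w' w t (t ^ a) * GG w w' t (t ^ a), (Polynomial.derivative (FP w' w a)).eval t *
      GG w w' t (t ^ a) + FF w' w t (t ^ a) * (Polynomial.derivative (GP w w' a)).eval t,
      (Polynomial.derivative (GP w' w a)).eval t * GG w w' t (t ^ a), mul_ne_zero h7 h6,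
      mul_ne_zero h5 h6, ?_, ?_⟩
    · intro i
      fin_cases i
      · simp [pp, eval_FP, eval_GP, h4]
      · simp [pp, eval_FP, eval_GP]
      · simp [pp, eval_FP, eval_GP, h4]
    · intro i
      fin_cases i
      · simp [pp, eval_FP, eval_GP, Polynomial.derivative_mul, h4]
        field_simp
      · simp [pp, eval_FP, eval_GP, Polynomial.derivative_mul]
      · simp [pp, eval_FP, eval_GP, Polynomial.derivative_mul, h4]
        ring

/-- finite points with many branches -/
theorem mult_fin (hF : F.IsHomogeneous d) (h0 : aeval (pp w w' a) F = 0) {c0 c1 : ℂ}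
    {K M0 M1 : Polynomial ℂ} (e0 : pp w w' a 0 = Polynomial.C c0 * pp w w' a 2 + K * M0)
    (e1 : pp w w' a 1 = Polynomial.C c1 * pp w w' a 2 + K * M1) {S : Finset ℂ}
    (hS : ∀ t ∈ S, K.eval t = 0 ∧ (Polynomial.derivative K).eval t ≠ 0 ∧
      (pp w w' a 2).eval t ≠ 0 ∧ M1.eval t ≠ 0)
    (hinj : Set.InjOn (fun t => M0.eval t / M1.eval t) S) :
    F ∈ mI (Projectivization.mk ℂ (![c0, c1, 1] : Fin 3 → ℂ) (v1_ne c0 c1)).rep ^ S.card := by
  refine mem_pow_mk hF h0 (v1_ne c0 c1) (b1 := ![0, 1, 0]) (b2 := ![1, 0, 0]) ?_ hinj ?_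
  · intro u
    refine ⟨u 2, u 1 - c1 * u 2, u 0 - c0 * u 2, ?_⟩
    funext i
    fin_cases i <;> simp <;> ring
  · intro t ht
    obtain ⟨h1, h2, h3, h4⟩ := hS t ht
    refine ⟨(pp w w' a 2).eval t, (Polynomial.derivative (pp w w' a 2)).eval t,
      (Polynomial.derivative K).eval t * M1.eval t, h3, mul_ne_zero h2 h4, ?_, ?_⟩
    · intro i
      fin_cases i
      · change (pp w w' a 0).eval t = _
        rw [e0]
        simp [h1]; ring
      · change (pp w w' a 1).eval t = _
        rw [e1]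
        simp [h1]; ring
      · simp
    · intro i
      fin_cases i
      · change (Polynomial.derivative (pp w w' a 0)).eval t = _
        rw [e0]
        simp only [Polynomial.derivative_add, Polynomial.derivative_mul, Polynomial.derivative_C,
          zero_mul, zero_add, Polynomial.eval_add, Polynomial.eval_mul, Polynomial.eval_C, h1,
          add_zero]
        simp
        field_simp
      · change (Polynomial.derivative (pp w w' a 1)).eval t = _
        rw [e1]
        simp only [Polynomial.derivative_add, Polynomial.derivative_mul, Polynomial.derivative_C,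
          zero_mul, zero_add, Polynomial.eval_add, Polynomial.eval_mul, Polynomial.eval_C, h1,
          add_zero]
        simp
        ring
      · simp

end Pool.Agent.KS6_95.HM
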