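import Pool.Agent.KS6_95.HM.Curve

/-!
# The six finite points with many branches
-/

set_option autoImplicit false

namespace Pool.Agent.KS6_95.HM

open MvPolynomial Pool.Agent.Chud Pool.Agent.Q79.HC

variable {F : MvPolynomial (Fin 3) ℂ} {d : ℕ} {w w' z : ℂ} {a : ℕ}

/-- the parameters of the six points, first kind -/
noncomputable def S2 (z : ℂ) (a : ℕ) : Finset ℂ := (tri (a + 1) 1 (z ^ 2) z 1).roots.toFinset.erase 1

/-- the parameters of the six points, second kind -/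
noncomputable def S3 (z : ℂ) (a : ℕ) : Finset ℂ := (tri (a + 1) a (z ^ 2) z 1).roots.toFinset.erase 1

theorem norm_z2 (hz : z ^ 3 = 1) : ‖z ^ 2‖ = 1 := by rw [norm_pow, norm_z hz, one_pow]

theorem card_S2 (hz : z ^ 3 = 1) (ha : 3 ≤ a) : a ≤ (S2 z a).card := by
  have h1 := card_roots_tri (n := a + 1) (k := 1) (b := z ^ 2) (c := z) (e := 1) (by omega)
    (by omega) (norm_z2 hz) (norm_z hz) (by norm_num)
  have h2 := Finset.pred_card_le_card_erase (s := (tri (a + 1) 1 (z ^ 2) z 1).roots.toFinset)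
    (a := 1)
  unfold S2
  omega

theorem card_S3 (hz : z ^ 3 = 1) (ha : 3 ≤ a) : a ≤ (S3 z a).card := by
  have h1 := card_roots_tri (n := a + 1) (k := a) (b := z ^ 2) (c := z) (e := 1) (by omega)
    (by omega) (norm_z2 hz) (norm_z hz) (by norm_num)
  have h2 := Finset.pred_card_le_card_erase (s := (tri (a + 1) a (z ^ 2) z 1).roots.toFinset)
    (a := 1)
  unfold S3
  omega

theorem mem_S2 (hz : z ^ 3 = 1) (ha : 3 ≤ a) {t : ℂ} (ht : t ∈ S2 z a) :
    t ≠ 0 ∧ t ≠ 1 ∧ (z * t) * (z * t ^ a) + z * t + 1 = 0 ∧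
      (tri (a + 1) 1 (z ^ 2) z 1).eval t = 0 ∧
      (Polynomial.derivative (tri (a + 1) 1 (z ^ 2) z 1)).eval t ≠ 0 := by
  unfold S2 at ht
  rw [Finset.mem_erase, Multiset.mem_toFinset, Polynomial.mem_roots'] at ht
  obtain ⟨h1, -, h2⟩ := ht
  have h2 : (tri (a + 1) 1 (z ^ 2) z 1).eval t = 0 := h2
  have h4 := h2
  rw [eval_tri] at h4
  refine ⟨?_, h1, by linear_combination h4, h2,
    tri_simple (by omega) (by omega) (norm_z2 hz) (norm_z hz) (by norm_num) h2⟩
  rintro rfl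
  simp at h4

theorem mem_S3 (hz : z ^ 3 = 1) (ha : 3 ≤ a) {t : ℂ} (ht : t ∈ S3 z a) :
    t ≠ 0 ∧ t ≠ 1 ∧ (z * t) * (z * t ^ a) + z * t ^ a + 1 = 0 ∧
      (tri (a + 1) a (z ^ 2) z 1).eval t = 0 ∧
      (Polynomial.derivative (tri (a + 1) a (z ^ 2) z 1)).eval t ≠ 0 := by
  unfold S3 at ht
  rw [Finset.mem_erase, Multiset.mem_toFinset, Polynomial.mem_roots'] at ht
  obtain ⟨h1, -, h2⟩ := ht
  have h2 : (tri (a + 1) a (z ^ 2) z 1).eval t = 0 := h2
  have h4 := h2
  rw [eval_tri] at h4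
  refine ⟨?_, h1, by linear_combination h4, h2,
    tri_simple (by omega) (by omega) (norm_z2 hz) (norm_z hz) (by norm_num) h2⟩
  rintro rfl
  rw [zero_pow (by omega), zero_pow (by omega)] at h4
  simp at h4

/-- values at a parameter of the first kind -/
theorem val2 (hw : Cub w w') (h3 : 3 ∣ a) (hz : z ^ 3 = 1) {t : ℂ} (h0 : t ≠ 0) (h1 : t ≠ 1)
    (hK : (z * t) * (z * t ^ a) + z * t + 1 = 0) :
    GG w w' t (t ^ a) ≠ 0 ∧ (z ^ 2 * (t * t ^ a) + w * (z * t ^ a) + w') ≠ 0 ∧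
    (z * t) * (z * GG w w' t (t ^ a)) = (z * t - w) ^ 2 * (z * t - w') ∧
    (z * t) * (z ^ 2 * (t * t ^ a) + w * (z * t ^ a) + w') = -(z * t - w') ^ 2 := by
  have hn := m_ne hw h3 hz h1 hK
  have hn' := m_ne hw.symm h3 hz h1 hK
  have e1 := b1 hw hK
  have e2 := b2 hw hK
  rw [← GG_tilde hz] at e1
  have e3 : z ^ 2 * (t * t ^ a) + w * (z * t ^ a) + w' = z * t * (z * t ^ a) + w * (z * t ^ a) + w' := by
    ring
  rw [e3]
  refine ⟨?_, ?_, e1, e2⟩
  · intro h
    rw [h, mul_zero, mul_zero] at e1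
    exact (mul_ne_zero (pow_ne_zero 2 (sub_ne_zero.2 hn)) (sub_ne_zero.2 hn')) e1.symm
  · intro h
    rw [h, mul_zero] at e2
    exact (neg_ne_zero.2 (pow_ne_zero 2 (sub_ne_zero.2 hn'))) e2.symm

/-- values at a parameter of the second kind -/
theorem val3 (hw : Cub w w') (h3 : 3 ∣ a) (hz : z ^ 3 = 1) {t : ℂ} (h0 : t ≠ 0) (h1 : t ≠ 1)
    (hK : (z * t) * (z * t ^ a) + z * t ^ a + 1 = 0) :
    GG w w' t (t ^ a) ≠ 0 ∧ (z ^ 2 * (t * t ^ a) + w * (z * t) + w') ≠ 0 ∧
    (z * t ^ a) * (z * GG w w' t (t ^ a)) = (z * t ^ a - w') ^ 2 * (z * t ^ a - w) ∧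
    (z * t ^ a) * (z ^ 2 * (t * t ^ a) + w * (z * t) + w') = -(z * t ^ a - w') ^ 2 := by
  have hn := m_ne' hw h3 hz h1 hK
  have hn' := m_ne' hw.symm h3 hz h1 hK
  have e1 := b1' hw hK
  have e2 := b2' hw hK
  rw [← GG_tilde hz] at e1
  have e3 : z ^ 2 * (t * t ^ a) + w * (z * t) + w' = z * t * (z * t ^ a) + w * (z * t) + w' := by
    ring
  rw [e3]
  refine ⟨?_, ?_, e1, e2⟩
  · intro h
    rw [h, mul_zero, mul_zero] at e1
    exact (mul_ne_zero (pow_ne_zero 2 (sub_ne_zero.2 hn')) (sub_ne_zero.2 hn)) e1.symm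
  · intro h
    rw [h, mul_zero] at e2
    exact (neg_ne_zero.2 (pow_ne_zero 2 (sub_ne_zero.2 hn'))) e2.symm

/-- the linear factor of the first kind -/
noncomputable def LA (w w' z : ℂ) (a : ℕ) : Polynomial ℂ :=
  Polynomial.C (z ^ 2) * Polynomial.X ^ (a + 1) + Polynomial.C (w * z) * Polynomial.X ^ a +
    Polynomial.C w'

/-- the linear factor of the second kind -/
noncomputable def LB (w w' z : ℂ) (a : ℕ) : Polynomial ℂ :=
  Polynomial.C (z ^ 2) * Polynomial.X ^ (a + 1) + Polynomial.C (w * z) * Polynomial.X +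
    Polynomial.C w'

theorem eval_LA (t : ℂ) : (LA w w' z a).eval t = z ^ 2 * (t * t ^ a) + w * (z * t ^ a) + w' := by
  simp only [LA, Polynomial.eval_add, Polynomial.eval_mul, Polynomial.eval_pow, Polynomial.eval_X,
    Polynomial.eval_C]
  ring

theorem eval_LB (t : ℂ) : (LB w w' z a).eval t = z ^ 2 * (t * t ^ a) + w * (z * t) + w' := by
  simp only [LB, Polynomial.eval_add, Polynomial.eval_mul, Polynomial.eval_pow, Polynomial.eval_X,
    Polynomial.eval_C]
  ring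

theorem KA (hw : Cub w w') (hz : z ^ 3 = 1) : FP w w' a + Polynomial.C z * GP w w' a =
    tri (a + 1) 1 (z ^ 2) z 1 * LA w w' z a := by
  apply Polynomial.funext
  intro t
  rw [Polynomial.eval_add, Polynomial.eval_mul, Polynomial.eval_mul, eval_tri, eval_LA, eval_FP,
    eval_GP, Polynomial.eval_C, kA hw hz]
  ring

theorem KB (hw : Cub w w') (hz : z ^ 3 = 1) : Polynomial.C w * FP w' w a +
    Polynomial.C z * GP w' w a = tri (a + 1) a (z ^ 2) z 1 * LB w w' z a := by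
  apply Polynomial.funext
  intro t
  rw [Polynomial.eval_add, Polynomial.eval_mul, Polynomial.eval_mul, Polynomial.eval_mul, eval_tri,
    eval_LB, eval_FP, eval_GP, Polynomial.eval_C, Polynomial.eval_C, kB hw hz]
  ring

theorem mult_A (hw : Cub w w') (h3 : 3 ∣ a) (ha : 3 ≤ a) (hz : z ^ 3 = 1) (hF : F.IsHomogeneous d)
    (h0 : aeval (pp w w' a) F = 0) :
    F ∈ mI (Projectivization.mk ℂ (![-z, -z, 1] : Fin 3 → ℂ) (v1_ne (-z) (-z))).rep ^
      (S2 z a).card := by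
  have hz0 : z ≠ 0 := by rintro rfl; simp at hz
  refine mult_fin hF h0 (c0 := -z) (c1 := -z) (K := tri (a + 1) 1 (z ^ 2) z 1)
    (M0 := LA w w' z a * GP w' w a) (M1 := LA w' w z a * GP w w' a) ?_ ?_ ?_ ?_
  · change FP w w' a * GP w' w a = Polynomial.C (-z) * (GP w w' a * GP w' w a) + _
    have := KA (a := a) hw hz
    rw [Polynomial.C_neg]
    linear_combination GP w' w a * this
  · change FP w' w a * GP w w' a = Polynomial.C (-z) * (GP w w' a * GP w' w a) + _
    have := KA (a := a) hw.symm hz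
    rw [Polynomial.C_neg]
    linear_combination GP w w' a * this
  · intro t ht
    obtain ⟨h1, h2, h4, h5, h6⟩ := mem_S2 hz ha ht
    obtain ⟨v1, v2, -, -⟩ := val2 hw h3 hz h1 h2 h4
    obtain ⟨u1, u2, -, -⟩ := val2 hw.symm h3 hz h1 h2 h4
    refine ⟨h5, h6, ?_, ?_⟩
    · change (GP w w' a * GP w' w a).eval t ≠ 0
      rw [Polynomial.eval_mul, eval_GP, eval_GP]
      exact mul_ne_zero v1 u1
    · rw [Polynomial.eval_mul, eval_GP, eval_LA]
      exact mul_ne_zero u2 v1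
  · intro t ht t' ht' h
    have key : ∀ s ∈ S2 z a, (LA w w' z a * GP w' w a).eval s / (LA w' w z a * GP w w' a).eval s *
        (z * s - w) ^ 3 = (z * s - w') ^ 3 := by
      intro s hs
      obtain ⟨h1, h2, h4, h5, h6⟩ := mem_S2 hz ha hs
      obtain ⟨v1, v2, v3, v4⟩ := val2 hw h3 hz h1 h2 h4
      obtain ⟨u1, u2, u3, u4⟩ := val2 hw.symm h3 hz h1 h2 h4
      rw [Polynomial.eval_mul, Polynomial.eval_mul, eval_GP, eval_GP, eval_LA, eval_LA,
        div_mul_eq_mul_div, div_eq_iff (mul_ne_zero u2 v1)]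
      set LL1 := z ^ 2 * (s * s ^ a) + w * (z * s ^ a) + w'
      set LL2 := z ^ 2 * (s * s ^ a) + w' * (z * s ^ a) + w
      set G1 := GG w w' s (s ^ a)
      set G2 := GG w' w s (s ^ a)
      have hP : z * s ≠ 0 := mul_ne_zero hz0 h1
      apply mul_left_cancel₀ (mul_ne_zero (mul_ne_zero hP hP) hz0)
      have a1 : z * s * (z * s) * z * (LL1 * G2 * (z * s - w) ^ 3) =
          (z * s * LL1) * (z * s * (z * G2)) * (z * s - w) ^ 3 := by ring
      have a2 : z * s * (z * s) * z * ((z * s - w') ^ 3 * (LL2 * G1)) =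
          (z * s * LL2) * (z * s * (z * G1)) * (z * s - w') ^ 3 := by ring
      rw [a1, a2, v4, u3, u4, v3]
      ring
    obtain ⟨h1, h2, h4, -, -⟩ := mem_S2 hz ha ht
    obtain ⟨h1', h2', h4', -, -⟩ := mem_S2 hz ha ht'
    have k1 := key t ht
    have k2 := key t' ht'
    have h : (LA w w' z a * GP w' w a).eval t / (LA w' w z a * GP w w' a).eval t =
      (LA w w' z a * GP w' w a).eval t' / (LA w' w z a * GP w w' a).eval t' := h
    rw [← h] at k2
    refine (m_inj hw h3 hz h1 h2 h1' h4 h4' ?_).symm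
    rw [mul_pow, mul_pow, ← k1, ← k2]
    ring

theorem mult_B (hw : Cub w w') (h3 : 3 ∣ a) (ha : 3 ≤ a) (hz : z ^ 3 = 1) (hF : F.IsHomogeneous d)
    (h0 : aeval (pp w w' a) F = 0) :
    F ∈ mI (Projectivization.mk ℂ (![-(z * w), -(z * w'), 1] : Fin 3 → ℂ)
      (v1_ne (-(z * w)) (-(z * w')))).rep ^ (S3 z a).card := by
  have hz0 : z ≠ 0 := by rintro rfl; simp at hz
  have hw0 := hw.ne_zero
  have hw0' := hw.symm.ne_zero
  have hm : Polynomial.C w * Polynomial.C w' = (1 : Polynomial ℂ) := by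
    rw [← Polynomial.C_mul, hw.m, Polynomial.C_1]
  refine mult_fin hF h0 (c0 := -(z * w)) (c1 := -(z * w')) (K := tri (a + 1) a (z ^ 2) z 1)
    (M0 := Polynomial.C w * (LB w' w z a * GP w' w a))
    (M1 := Polynomial.C w' * (LB w w' z a * GP w w' a)) ?_ ?_ ?_ ?_
  · change FP w w' a * GP w' w a = Polynomial.C (-(z * w)) * (GP w w' a * GP w' w a) + _
    have := KB (a := a) hw.symm hz
    rw [Polynomial.C_neg, Polynomial.C_mul]
    linear_combination Polynomial.C w * GP w' w a * this - FP w w' a * GP w' w a * hm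
  · change FP w' w a * GP w w' a = Polynomial.C (-(z * w')) * (GP w w' a * GP w' w a) + _
    have := KB (a := a) hw hz
    rw [Polynomial.C_neg, Polynomial.C_mul]
    linear_combination Polynomial.C w' * GP w w' a * this - FP w' w a * GP w w' a * hm
  · intro t ht
    obtain ⟨h1, h2, h4, h5, h6⟩ := mem_S3 hz ha ht
    obtain ⟨v1, v2, -, -⟩ := val3 hw h3 hz h1 h2 h4
    obtain ⟨u1, u2, -, -⟩ := val3 hw.symm h3 hz h1 h2 h4
    refine ⟨h5, h6, ?_, ?_⟩
    · change (GP w w' a * GP w' w a).eval t ≠ 0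
      rw [Polynomial.eval_mul, eval_GP, eval_GP]
      exact mul_ne_zero v1 u1
    · rw [Polynomial.eval_mul, Polynomial.eval_mul, eval_GP, eval_LB, Polynomial.eval_C]
      exact mul_ne_zero hw0' (mul_ne_zero v2 v1)
  · intro t ht t' ht' h
    have key : ∀ s ∈ S3 z a, (Polynomial.C w * (LB w' w z a * GP w' w a)).eval s /
        (Polynomial.C w' * (LB w w' z a * GP w w' a)).eval s *
        (w' * (z * s ^ a - w') ^ 3) = w * (z * s ^ a - w) ^ 3 := by
      intro s hs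
      obtain ⟨h1, h2, h4, h5, h6⟩ := mem_S3 hz ha hs
      obtain ⟨v1, v2, v3, v4⟩ := val3 hw h3 hz h1 h2 h4
      obtain ⟨u1, u2, u3, u4⟩ := val3 hw.symm h3 hz h1 h2 h4
      rw [Polynomial.eval_mul, Polynomial.eval_mul, Polynomial.eval_mul, Polynomial.eval_mul,
        eval_GP, eval_GP, eval_LB, eval_LB, Polynomial.eval_C, Polynomial.eval_C,
        div_mul_eq_mul_div, div_eq_iff (mul_ne_zero hw0' (mul_ne_zero v2 v1))]
      set LL1 := z ^ 2 * (s * s ^ a) + w * (z * s) + w'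
      set LL2 := z ^ 2 * (s * s ^ a) + w' * (z * s) + w
      set G1 := GG w w' s (s ^ a)
      set G2 := GG w' w s (s ^ a)
      have hP : z * s ^ a ≠ 0 := mul_ne_zero hz0 (pow_ne_zero _ h1)
      apply mul_left_cancel₀ (mul_ne_zero (mul_ne_zero hP hP) hz0)
      have a1 : z * s ^ a * (z * s ^ a) * z * (w * (LL2 * G2) * (w' * (z * s ^ a - w') ^ 3)) =
          w * w' * ((z * s ^ a * LL2) * (z * s ^ a * (z * G2)) * (z * s ^ a - w') ^ 3) := by ring
      have a2 : z * s ^ a * (z * s ^ a) * z * (w * (z * s ^ a - w) ^ 3 * (w' * (LL1 * G1))) =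
          w * w' * ((z * s ^ a * LL1) * (z * s ^ a * (z * G1)) * (z * s ^ a - w) ^ 3) := by ring
      rw [a1, a2, v4, u3, u4, v3]
      ring
    obtain ⟨h1, h2, h4, -, -⟩ := mem_S3 hz ha ht
    obtain ⟨h1', h2', h4', -, -⟩ := mem_S3 hz ha ht'
    have k1 := key t ht
    have k2 := key t' ht'
    have h : (Polynomial.C w * (LB w' w z a * GP w' w a)).eval t /
        (Polynomial.C w' * (LB w w' z a * GP w w' a)).eval t =
      (Polynomial.C w * (LB w' w z a * GP w' w a)).eval t' /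
        (Polynomial.C w' * (LB w w' z a * GP w w' a)).eval t' := h
    rw [← h] at k2
    refine (m_inj' hw h3 hz h1 h2 h1' h4 h4' ?_).symm
    apply mul_left_cancel₀ hw0
    rw [mul_pow, mul_pow]
    linear_combination (z * t ^ a - w') ^ 3 * k2 - (z * t' ^ a - w') ^ 3 * k1

end Pool.Agent.KS6_95.HM
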