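import Pool.Agent.KS6_95.HM.Curve2

/-!
# The triple points
-/

set_option autoImplicit false

namespace Pool.Agent.KS6_95.HM

open MvPolynomial Pool.Agent.Chud Pool.Agent.Q79.HC

variable {F : MvPolynomial (Fin 3) ℂ} {d : ℕ} {w w' z t : ℂ} {a : ℕ}

/-- an affine coordinate of the point of the parameter -/
noncomputable def cf (w w' : ℂ) (a : ℕ) (t : ℂ) : ℂ := FF w w' t (t ^ a) / GG w w' t (t ^ a)

theorem branch_at (ht : t ≠ 0) (hG : GG w w' t (t ^ a) ≠ 0) (hG' : GG w' w t (t ^ a) ≠ 0) :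
    Branch (pp w w' a) t ![cf w w' a t, cf w' w a t, 1]
      ![UU w w' t (t ^ a) 1 a / (t * GG w w' t (t ^ a) ^ 2),
        UU w' w t (t ^ a) 1 a / (t * GG w' w t (t ^ a) ^ 2), 0] := by
  have e1 : (Polynomial.derivative (FP w w' a)).eval t = DF w t (t ^ a) 1 a / t := by
    rw [eq_div_iff ht, mul_comm]; exact deriv_FP w w' a t
  have e2 : (Polynomial.derivative (FP w' w a)).eval t = DF w' t (t ^ a) 1 a / t := by
    rw [eq_div_iff ht, mul_comm]; exact deriv_FP w' w a t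
  have e3 : (Polynomial.derivative (GP w w' a)).eval t = DG w w' t (t ^ a) 1 a / t := by
    rw [eq_div_iff ht, mul_comm]; exact deriv_GP w w' a t
  have e4 : (Polynomial.derivative (GP w' w a)).eval t = DG w' w t (t ^ a) 1 a / t := by
    rw [eq_div_iff ht, mul_comm]; exact deriv_GP w' w a t
  refine ⟨GG w w' t (t ^ a) * GG w' w t (t ^ a), (DG w w' t (t ^ a) 1 a / t) * GG w' w t (t ^ a) +
    GG w w' t (t ^ a) * (DG w' w t (t ^ a) 1 a / t), mul_ne_zero hG hG', ?_, ?_⟩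
  · intro i
    fin_cases i
    · change (FP w w' a * GP w' w a).eval t = GG w w' t (t ^ a) * GG w' w t (t ^ a) * cf w w' a t
      rw [Polynomial.eval_mul, eval_FP, eval_GP, cf]
      field_simp
    · change (FP w' w a * GP w w' a).eval t = GG w w' t (t ^ a) * GG w' w t (t ^ a) * cf w' w a t
      rw [Polynomial.eval_mul, eval_FP, eval_GP, cf]
      field_simp
    · change (GP w w' a * GP w' w a).eval t = GG w w' t (t ^ a) * GG w' w t (t ^ a) * 1
      rw [Polynomial.eval_mul, eval_GP, eval_GP, mul_one]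
  · intro i
    fin_cases i
    · change (Polynomial.derivative (FP w w' a * GP w' w a)).eval t = _ * cf w w' a t +
        _ * (UU w w' t (t ^ a) 1 a / (t * GG w w' t (t ^ a) ^ 2))
      rw [Polynomial.derivative_mul, Polynomial.eval_add, Polynomial.eval_mul, Polynomial.eval_mul,
        e1, e4, eval_FP, eval_GP, cf, UU]
      field_simp
      ring
    · change (Polynomial.derivative (FP w' w a * GP w w' a)).eval t = _ * cf w' w a t +
        _ * (UU w' w t (t ^ a) 1 a / (t * GG w' w t (t ^ a) ^ 2))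
      rw [Polynomial.derivative_mul, Polynomial.eval_add, Polynomial.eval_mul, Polynomial.eval_mul,
        e2, e3, eval_FP, eval_GP, cf, UU]
      field_simp
      ring
    · change (Polynomial.derivative (GP w w' a * GP w' w a)).eval t = _ * 1 + _ * 0
      rw [Polynomial.derivative_mul, Polynomial.eval_add, Polynomial.eval_mul, Polynomial.eval_mul,
        e3, e4, eval_GP, eval_GP]
      ring

theorem rot_UU {p q r : ℂ} (hw : Cub w w') (h1 : p * q * r = 1) (a b c : ℂ) (hs : a + b + c = 0) :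
    p ^ 2 * UU w w' q r b c = (w' * r) ^ 2 * UU w w' p q a b := by
  have e1 := rot_F hw h1
  have e2 := rot_G hw h1
  have e3 := rot_DF hw h1 a b c hs
  have e4 := rot_DG hw h1 a b c hs
  have : p ^ 2 * UU w w' q r b c = (p * DF w q r b c) * (p * GG w w' q r) -
    (p * FF w w' q r) * (p * DG w w' q r b c) := by unfold UU; ring
  rw [this, e1, e2, e3, e4, UU]
  ring

/-- the tangent vector in terms of the rotated coordinates -/
theorem rot_tan {p q r : ℂ} (hw : Cub w w') (h1 : p * q * r = 1) (a b c : ℂ) (hs : a + b + c = 0) :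
    UU w w' q r b c / (q * GG w w' q r ^ 2) = UU w w' p q a b / (q * GG w w' p q ^ 2) := by
  have hp : p ≠ 0 := by rintro rfl; simp at h1
  have hr : r ≠ 0 := by rintro rfl; simp at h1
  have hw' := hw.symm.ne_zero
  have e2 := rot_G hw h1
  have e3 := rot_UU hw h1 a b c hs
  have e4 : GG w w' q r = (w' * r) / p * GG w w' p q := by
    field_simp
    linear_combination e2
  have e5 : UU w w' q r b c = ((w' * r) / p) ^ 2 * UU w w' p q a b := by
    field_simp
    linear_combination e3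
  rw [e4, e5, mul_pow]
  have h6 : (w' * r / p) ^ 2 ≠ 0 := pow_ne_zero 2 (div_ne_zero (mul_ne_zero hw' hr) hp)
  rw [show q * ((w' * r / p) ^ 2 * GG w w' p q ^ 2) = (w' * r / p) ^ 2 * (q * GG w w' p q ^ 2) by ring,
    mul_div_mul_left _ _ h6]

theorem rot_cf {p q r : ℂ} (hw : Cub w w') (h1 : p * q * r = 1) :
    FF w w' q r / GG w w' q r = FF w w' p q / GG w w' p q := by
  have hp : p ≠ 0 := by rintro rfl; simp at h1
  have hr : r ≠ 0 := by rintro rfl; simp at h1
  have hw' := hw.symm.ne_zero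
  rw [← mul_div_mul_left _ _ hp, rot_F hw h1, rot_G hw h1, mul_div_mul_left _ _ (mul_ne_zero hw' hr)]

theorem pqr_NN (hN : t ^ NN a = 1) : t * t ^ a * (t ^ a) ^ a = 1 := by
  rw [← hN, NN]; ring

theorem NN_pow (hN : t ^ NN a = 1) : (t ^ a) ^ NN a = 1 := by
  rw [← pow_mul, mul_comm, pow_mul, hN, one_pow]

theorem pow_ne_one_of_NN (h1 : t ≠ 1) (hN : t ^ NN a = 1) : t ^ a ≠ 1 := by
  intro h
  apply h1
  have := a_NN hN
  rw [h, one_pow, one_pow] at this
  exact this.symm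

theorem cf_rot (hw : Cub w w') (hN : t ^ NN a = 1) : cf w w' a (t ^ a) = cf w w' a t :=
  rot_cf hw (pqr_NN hN)

theorem NN_ne (a : ℕ) : (a : ℂ) ^ 2 + a + 1 ≠ 0 := by
  have : ((a ^ 2 + a + 1 : ℕ) : ℂ) ≠ 0 := Nat.cast_ne_zero.2 (by positivity)
  push_cast at this
  exact this

theorem jac_ne (hw : Cub w w') (h3 : 3 ∣ a) (h1 : t ≠ 1) (hN : t ^ NN a = 1) {x y u v : ℂ}
    (hxy : x * v - y * u ≠ 0) :
    UU w w' t (t ^ a) x y * UU w' w t (t ^ a) u v - UU w' w t (t ^ a) x y * UU w w' t (t ^ a) u v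
      ≠ 0 := by
  have h0 := ne_zero_of_NN hN
  have hc : (1 : ℂ) ^ 3 = 1 := one_pow 3
  rw [jac hw]
  refine mul_ne_zero (mul_ne_zero (mul_ne_zero hxy (sub_ne_zero.2 hw.ne))
    (mul_ne_zero h0 (pow_ne_zero _ h0))) (mul_ne_zero ?_ ?_)
  · have e := prod3 hw (t * t ^ a) t
    have k1 := K_ne_of_NN h3 hc h1 hN
    have k2 := K_ne_of_NN h3 hw.cube h1 hN
    have k3 := K_ne_of_NN h3 hw.symm.cube h1 hN
    have e1 : t ^ 3 * (t ^ a) ^ 3 + t ^ 3 + 1 - 3 * t ^ 2 * t ^ a =
        ((1 * t) * (1 * t ^ a) + 1 * t + 1) * ((w * t) * (w * t ^ a) + w * t + 1) *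
          ((w' * t) * (w' * t ^ a) + w' * t + 1) := by
      linear_combination e
    rw [e1]
    exact mul_ne_zero (mul_ne_zero k1 k2) k3
  · have e := prod3 hw (t * t ^ a) (t ^ a)
    have k1 := K_ne_of_NN' h3 hc h1 hN
    have k2 := K_ne_of_NN' h3 hw.cube h1 hN
    have k3 := K_ne_of_NN' h3 hw.symm.cube h1 hN
    have e1 : t ^ 3 * (t ^ a) ^ 3 + (t ^ a) ^ 3 + 1 - 3 * t * (t ^ a) ^ 2 =
        ((1 * t) * (1 * t ^ a) + 1 * t ^ a + 1) * ((w * t) * (w * t ^ a) + w * t ^ a + 1) *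
          ((w' * t) * (w' * t ^ a) + w' * t ^ a + 1) := by
      linear_combination e
    rw [e1]
    exact mul_ne_zero (mul_ne_zero k1 k2) k3

theorem mult_T (hw : Cub w w') (h3 : 3 ∣ a) (h1 : t ≠ 1) (hN : t ^ NN a = 1)
    (hF : F.IsHomogeneous d) (h0 : aeval (pp w w' a) F = 0) :
    F ∈ mI (Projectivization.mk ℂ (![cf w w' a t, cf w' w a t, 1] : Fin 3 → ℂ)
      (v1_ne _ _)).rep ^ 3 := by
  have ht0 := ne_zero_of_NN hN
  have hN2 := NN_pow hN
  have hN3 := NN_pow hN2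
  have h12 := pow_ne_one_of_NN h1 hN
  have h13 := pow_ne_one_of_NN h12 hN2
  have hq0 := ne_zero_of_NN hN2
  have hr0 := ne_zero_of_NN hN3
  have hG := GG_ne_of_NN hw h3 h1 hN
  have hG' := GG_ne_of_NN hw.symm h3 h1 hN
  have b1 := branch_at ht0 hG hG'
  have b2 := branch_at hq0 (GG_ne_of_NN hw h3 h12 hN2) (GG_ne_of_NN hw.symm h3 h12 hN2)
  have b3 := branch_at hr0 (GG_ne_of_NN hw h3 h13 hN3) (GG_ne_of_NN hw.symm h3 h13 hN3)
  have p1 := pqr_NN hN
  have p2 := pqr_NN hN2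
  rw [cf_rot hw hN, cf_rot hw.symm hN] at b2
  rw [cf_rot hw hN2, cf_rot hw.symm hN2, cf_rot hw hN, cf_rot hw.symm hN] at b3
  rw [rot_tan hw p1 (-1 - a) 1 a (by ring), rot_tan hw.symm p1 (-1 - a) 1 a (by ring)] at b2
  rw [rot_tan hw p2 (-1 - a) 1 a (by ring), rot_tan hw.symm p2 (-1 - a) 1 a (by ring)] at b3
  set p := t
  set q := t ^ a
  set r := q ^ a
  have c1 : UU w w' q r (-1 - a) 1 / (r * GG w w' q r ^ 2) = UU w w' p q a (-1 - a) / (r * GG w w' p q ^ 2) := by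
    have := rot_tan hw p1 a (-1 - a) 1 (by ring)
    have h5 : UU w w' q r (-1 - a) 1 / GG w w' q r ^ 2 = UU w w' p q a (-1 - a) / GG w w' p q ^ 2 := by
      have h6 := congrArg (fun x => q * x) this
      rw [mul_div_assoc', mul_div_assoc', mul_div_mul_left _ _ hq0, mul_div_mul_left _ _ hq0] at h6
      exact h6
    rw [mul_comm r, mul_comm r, ← div_div, ← div_div, h5]
  have c2 : UU w' w q r (-1 - a) 1 / (r * GG w' w q r ^ 2) = UU w' w p q a (-1 - a) / (r * GG w' w p q ^ 2) := by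
    have := rot_tan hw.symm p1 a (-1 - a) 1 (by ring)
    have h5 : UU w' w q r (-1 - a) 1 / GG w' w q r ^ 2 = UU w' w p q a (-1 - a) / GG w' w p q ^ 2 := by
      have h6 := congrArg (fun x => q * x) this
      rw [mul_div_assoc', mul_div_assoc', mul_div_mul_left _ _ hq0, mul_div_mul_left _ _ hq0] at h6
      exact h6
    rw [mul_comm r, mul_comm r, ← div_div, ← div_div, h5]
  rw [c1, c2] at b3
  have hNN := NN_ne a
  have j12 := jac_ne hw h3 h1 hN (x := 1) (y := a) (u := -1 - a) (v := 1) (by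
    intro h; apply hNN; linear_combination h)
  have j13 := jac_ne hw h3 h1 hN (x := 1) (y := a) (u := a) (v := -1 - a) (by
    intro h; apply hNN; linear_combination -h)
  have j23 := jac_ne hw h3 h1 hN (x := -1 - a) (y := 1) (u := a) (v := -1 - a) (by
    intro h; apply hNN; linear_combination h)
  obtain ⟨m, hm⟩ := Projectivization.exists_smul_eq_mk_rep ℂ _ (v1_ne (cf w w' a p) (cf w' w a p))
  rw [← hm]
  have hm0 : (m : ℂ) ≠ 0 := m.ne_zero
  have key : ∀ x y x' y' u v : ℂ, u ≠ 0 → v ≠ 0 → x * y' - y * x' ≠ 0 →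
      (m : ℂ) * (x / (u * GG w w' p q ^ 2)) * ((m : ℂ) * (y' / (v * GG w' w p q ^ 2))) -
      (m : ℂ) * (y / (u * GG w' w p q ^ 2)) * ((m : ℂ) * (x' / (v * GG w w' p q ^ 2))) ≠ 0 := by
    intro x y x' y' u v hu hv h h'
    apply h
    have e : (m : ℂ) * (x / (u * GG w w' p q ^ 2)) * ((m : ℂ) * (y' / (v * GG w' w p q ^ 2))) -
      (m : ℂ) * (y / (u * GG w' w p q ^ 2)) * ((m : ℂ) * (x' / (v * GG w w' p q ^ 2))) =
      (x * y' - y * x') * ((m : ℂ) ^ 2 / (u * v * GG w w' p q ^ 2 * GG w' w p q ^ 2)) := by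
      field_simp
    rw [e] at h'
    refine (mul_eq_zero.1 h').resolve_right (div_ne_zero (pow_ne_zero 2 hm0) ?_)
    exact mul_ne_zero (mul_ne_zero (mul_ne_zero hu hv) (pow_ne_zero 2 hG)) (pow_ne_zero 2 hG')
  refine mem_three hF h0 (v := m • ![cf w w' a p, cf w' w a p, 1]) ?_ ?_ ?_ ?_ (b1.smul hm0)
    (b2.smul hm0) (b3.smul hm0) ?_ ?_ ?_
  · change (m : ℂ) * 1 ≠ 0
    rw [mul_one]
    exact hm0
  · exact mul_zero _
  · exact mul_zero _
  · exact mul_zero _
  · exact key _ _ _ _ _ _ ht0 hq0 j12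
  · exact key _ _ _ _ _ _ ht0 hr0 j13
  · exact key _ _ _ _ _ _ hq0 hr0 j23

end Pool.Agent.KS6_95.HM
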