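import Pool.Agent.KS6_95.HM.Curve3
import Pool.Graph.R_pool_sql_team_seeded_2aa45f1a.Q79.HC.Count

/-!
# The set of the singular points and the sum over it
-/

set_option autoImplicit false

namespace Pool.Agent.KS6_95.HM

open MvPolynomial Pool.Agent.Chud
open Pool.Agent.Q79.HC (img T mem_T card_T mem_roots' card_roots)

variable {F : MvPolynomial (Fin 3) ℂ} {d : ℕ} {w w' z t : ℂ} {a : ℕ}

/-- a point of the affine plane -/
noncomputable def pt (x : ℂ × ℂ) : PP ℂ 2 :=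
  Projectivization.mk ℂ (![x.1, x.2, 1] : Fin 3 → ℂ) (v1_ne x.1 x.2)

theorem pt_inj : Function.Injective pt := by
  intro x y h
  obtain ⟨m, hm⟩ := (Projectivization.mk_eq_mk_iff' ℂ _ _ _ _).1 h
  have h2 : m * 1 = 1 := congrFun hm 2
  have h0 : m * y.1 = x.1 := congrFun hm 0
  have h1 : m * y.2 = x.2 := congrFun hm 1
  rw [mul_one] at h2
  rw [h2, one_mul] at h0 h1
  exact Prod.ext h0.symm h1.symm

/-- the first point at infinity -/
noncomputable def P1 : PP ℂ 2 := Projectivization.mk ℂ (![1, 0, 0] : Fin 3 → ℂ) v100_ne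

/-- the second point at infinity -/
noncomputable def P2 : PP ℂ 2 := Projectivization.mk ℂ (![0, 1, 0] : Fin 3 → ℂ) v010_ne

theorem P1_ne_P2 : P1 ≠ P2 := by
  intro h
  obtain ⟨m, hm⟩ := (Projectivization.mk_eq_mk_iff' ℂ _ _ _ _).1 h
  have h0 : m * 0 = 1 := congrFun hm 0
  rw [mul_zero] at h0
  exact zero_ne_one h0

theorem P1_ne_pt (x : ℂ × ℂ) : P1 ≠ pt x := by
  intro h
  obtain ⟨m, hm⟩ := (Projectivization.mk_eq_mk_iff' ℂ _ _ _ _).1 h.symm
  have h2 : m * 0 = 1 := congrFun hm 2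
  rw [mul_zero] at h2
  exact zero_ne_one h2

theorem P2_ne_pt (x : ℂ × ℂ) : P2 ≠ pt x := by
  intro h
  obtain ⟨m, hm⟩ := (Projectivization.mk_eq_mk_iff' ℂ _ _ _ _).1 h.symm
  have h2 : m * 0 = 1 := congrFun hm 2
  rw [mul_zero] at h2
  exact zero_ne_one h2

/-- the affine point of the parameter -/
noncomputable def cc (w w' : ℂ) (a : ℕ) (t : ℂ) : ℂ × ℂ := (cf w w' a t, cf w' w a t)

theorem FG_ne (hw : Cub w w') (ha : 3 ≤ a) (x : ℂ) : FP w w' a - Polynomial.C x * GP w w' a ≠ 0 := by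
  intro h
  have h1 := congrArg (Polynomial.eval 0) h
  rw [Polynomial.eval_sub, Polynomial.eval_mul, eval_FP, eval_GP, zero_pow (by omega)] at h1
  simp [FF, GG] at h1
  exact hw.symm.ne_zero h1

theorem GP_ne (hw : Cub w w') (h3 : 3 ∣ a) (ha : 3 ≤ a) : GP w w' a ≠ 0 := by
  have h1 : 0 < (T a).card := by
    rw [card_T]; positivity
  obtain ⟨t, ht⟩ := Finset.card_pos.1 h1
  obtain ⟨ht1, htN⟩ := mem_T.1 ht
  intro h
  have h2 := GG_ne_of_NN hw h3 ht1 htN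
  rw [← eval_GP, h, Polynomial.eval_zero] at h2
  exact h2 rfl

/-- the curve has infinitely many points -/
theorem img_infinite (hw : Cub w w') (h3 : 3 ∣ a) (ha : 3 ≤ a) : (img (pp w w' a)).Infinite := by
  classical
  intro hfin
  set D : Set ℂ := {t | t ≠ 0 ∧ GG w w' t (t ^ a) ≠ 0 ∧ GG w' w t (t ^ a) ≠ 0} with hD
  have hDinf : D.Infinite := by
    have h0 : (({0} : Finset ℂ) ∪ (GP w w' a).roots.toFinset ∪ (GP w' w a).roots.toFinset : Set ℂ)ᶜ
        ⊆ D := by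
      intro t ht
      simp only [Finset.coe_singleton, Set.mem_compl_iff, Set.mem_union,
        Set.mem_singleton_iff, Finset.mem_coe, Multiset.mem_toFinset, not_or,
        Polynomial.mem_roots (GP_ne hw h3 ha), Polynomial.mem_roots (GP_ne hw.symm h3 ha)] at ht
      obtain ⟨⟨h1, h2⟩, h4⟩ := ht
      rw [Polynomial.IsRoot, eval_GP] at h2 h4
      exact ⟨h1, h2, h4⟩
    refine Set.Infinite.mono h0 (Set.Finite.infinite_compl ?_)
    exact (Set.toFinite _)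
  have hsub : (fun t => pt (cc w w' a t)) '' D ⊆ img (pp w w' a) := by
    rintro q ⟨t, ⟨ht0, hG, hG'⟩, rfl⟩
    obtain ⟨c, e, hc, h1, -⟩ := (branch_at ht0 hG hG').ex
    obtain ⟨m, hm⟩ := Projectivization.exists_smul_eq_mk_rep ℂ _ (v1_ne (cf w w' a t) (cf w' w a t))
    have hm0 : (m : ℂ) ≠ 0 := m.ne_zero
    refine ⟨t, c * (m : ℂ)⁻¹, mul_ne_zero hc (inv_ne_zero hm0), ?_⟩
    intro i
    change _ = _ * (Projectivization.mk ℂ _ (v1_ne (cf w w' a t) (cf w' w a t))).rep i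
    rw [h1, ← hm]
    change _ = c * (m : ℂ)⁻¹ * ((m : ℂ) * _)
    field_simp
  apply hDinf
  refine Set.Finite.of_finite_fibers (fun t => pt (cc w w' a t)) (hfin.subset hsub) ?_
  rintro q ⟨t, ht, rfl⟩
  refine (Finset.finite_toSet (FP w w' a - Polynomial.C (cf w w' a t) * GP w w' a).roots.toFinset).subset ?_
  rintro s ⟨⟨hs0, hs1, hs2⟩, hs⟩
  have h4 : cf w w' a s = cf w w' a t := congrArg Prod.fst (pt_inj hs)
  rw [Finset.mem_coe, Multiset.mem_toFinset, Polynomial.mem_roots (FG_ne hw ha _),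
    Polynomial.IsRoot, Polynomial.eval_sub, Polynomial.eval_mul, Polynomial.eval_C, eval_FP,
    eval_GP, ← h4, cf]
  field_simp
  ring

/-- the first three points -/
noncomputable def ZA : Finset (ℂ × ℂ) :=
  (Polynomial.nthRootsFinset 3 (1 : ℂ)).image fun z => (-z, -z)

/-- the second three points -/
noncomputable def ZB (w w' : ℂ) : Finset (ℂ × ℂ) :=
  (Polynomial.nthRootsFinset 3 (1 : ℂ)).image fun z => (-(z * w), -(z * w'))

/-- the triple points -/
noncomputable def ZT (w w' : ℂ) (a : ℕ) : Finset (ℂ × ℂ) := (T a).image (cc w w' a)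

theorem card_ZA : ZA.card = 3 := by
  rw [ZA, Finset.card_image_of_injective, card_roots (by norm_num)]
  intro x y h
  exact neg_injective (congrArg Prod.fst h)

theorem card_ZB (hw : Cub w w') : (ZB w w').card = 3 := by
  rw [ZB, Finset.card_image_of_injective, card_roots (by norm_num)]
  intro x y h
  have h1 : -(x * w) = -(y * w) := congrArg Prod.fst h
  exact mul_right_cancel₀ hw.ne_zero (neg_injective h1)

theorem disj_AB (hw : Cub w w') : Disjoint ZA (ZB w w') := by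
  rw [Finset.disjoint_left]
  intro x hx hx'
  obtain ⟨z, hz, rfl⟩ := Finset.mem_image.1 hx
  obtain ⟨z', hz', h⟩ := Finset.mem_image.1 hx'
  have h1 : -(z' * w) = -z := congrArg Prod.fst h
  have h2 : -(z' * w') = -z := congrArg Prod.snd h
  have h4 : z' ≠ 0 := by
    rintro rfl
    have := (mem_roots' (by norm_num)).1 hz'
    simp at this
  exact hw.ne (mul_left_cancel₀ h4 (by linear_combination h2 - h1))

theorem disj_ABT (hw : Cub w w') (h3 : 3 ∣ a) : Disjoint (ZA ∪ ZB w w') (ZT w w' a) := by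
  rw [Finset.disjoint_left]
  intro x hx hx'
  obtain ⟨t, ht, rfl⟩ := Finset.mem_image.1 hx'
  obtain ⟨ht1, htN⟩ := mem_T.1 ht
  apply cube_ne hw h3 ht1 htN
  change (cc w w' a t).1 ^ 3 = (cc w w' a t).2 ^ 3
  rw [Finset.mem_union] at hx
  rcases hx with hx | hx
  · obtain ⟨z, hz, h⟩ := Finset.mem_image.1 hx
    rw [← h]
  · obtain ⟨z, hz, h⟩ := Finset.mem_image.1 hx
    rw [← h]
    change (-(z * w)) ^ 3 = (-(z * w')) ^ 3
    linear_combination (-z ^ 3) * hw.cube + z ^ 3 * hw.symm.cube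

open Classical in
/-- all the singular points in the sum -/
noncomputable def ZZ (w w' : ℂ) (a : ℕ) : Finset (PP ℂ 2) :=
  insert P1 (insert P2 ((ZA ∪ ZB w w' ∪ ZT w w' a).image pt))

theorem sum_ZZ (hw : Cub w w') (h3 : 3 ∣ a) (g : PP ℂ 2 → ℝ) : ∑ q ∈ ZZ w w' a, g q =
    g P1 + (g P2 + (∑ x ∈ ZA, g (pt x) + ∑ x ∈ ZB w w', g (pt x) + ∑ x ∈ ZT w w' a, g (pt x))) := by
  classical
  unfold ZZ
  rw [Finset.sum_insert, Finset.sum_insert, Finset.sum_image (fun x _ y _ h => pt_inj h),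
    Finset.sum_union (disj_ABT hw h3), Finset.sum_union (disj_AB hw)]
  · intro h
    obtain ⟨x, -, hx⟩ := Finset.mem_image.1 h
    exact P2_ne_pt x hx.symm
  · intro h
    rcases Finset.mem_insert.1 h with h | h
    · exact P1_ne_P2 h
    · obtain ⟨x, -, hx⟩ := Finset.mem_image.1 h
      exact P1_ne_pt x hx.symm

/-- the multiplicities at the points -/
theorem M_bound (hw : Cub w w') (h3 : 3 ∣ a) (ha : 3 ≤ a) (hF : F.IsHomogeneous d)
    (h0 : aeval (pp w w' a) F = 0) {M : PP ℂ 2 → ℕ} (hM : ∀ p m, m ≤ M p ↔ F ∈ mI p.rep ^ m) :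
    2 * a ≤ M P1 ∧ 2 * a ≤ M P2 ∧ (∀ x ∈ ZA, a ≤ M (pt x)) ∧ (∀ x ∈ ZB w w', a ≤ M (pt x)) ∧
      ∀ t ∈ T a, 3 ≤ M (pt (cc w w' a t)) := by
  refine ⟨?_, ?_, ?_, ?_, ?_⟩
  · exact (card_S1 hw ha).trans ((hM _ _).2 (mult_100 hw h3 ha hF h0))
  · exact (card_S1 hw.symm ha).trans ((hM _ _).2 (mult_010 hw h3 ha hF h0))
  · intro x hx
    obtain ⟨z, hz, rfl⟩ := Finset.mem_image.1 hx
    have hz3 := (mem_roots' (by norm_num)).1 hz
    exact (card_S2 hz3 ha).trans ((hM _ _).2 (mult_A hw h3 ha hz3 hF h0))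
  · intro x hx
    obtain ⟨z, hz, rfl⟩ := Finset.mem_image.1 hx
    have hz3 := (mem_roots' (by norm_num)).1 hz
    exact (card_S3 hz3 ha).trans ((hM _ _).2 (mult_B hw h3 ha hz3 hF h0))
  · intro t ht
    obtain ⟨ht1, htN⟩ := mem_T.1 ht
    exact (hM _ _).2 (mult_T hw h3 ht1 htN hF h0)

theorem sum_T (hw : Cub w w') (h3 : 3 ∣ a) {M : PP ℂ 2 → ℕ}
    (hM : ∀ t ∈ T a, 3 ≤ M (pt (cc w w' a t))) {c : ℝ} (hc : c ≤ 3) :
    ((a : ℝ) ^ 2 + a) * ((9 - c) / 3) ≤ ∑ x ∈ ZT w w' a, ((M (pt x) : ℝ) ^ 2 - c) := by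
  classical
  have e1 : ((a : ℝ) ^ 2 + a) * ((9 - c) / 3) = ∑ t ∈ T a, (9 - c) / 3 := by
    rw [Finset.sum_const, card_T, nsmul_eq_mul]
    push_cast
    ring
  rw [e1, ← Finset.sum_fiberwise_of_maps_to (g := cc w w' a) (t := ZT w w' a)
      (fun t ht => Finset.mem_image_of_mem _ ht)]
  refine Finset.sum_le_sum fun x hx => ?_
  obtain ⟨s, hs, rfl⟩ := Finset.mem_image.1 hx
  obtain ⟨hs1, hsN⟩ := mem_T.1 hs
  have hcard : ((T a).filter (fun t => cc w w' a t = cc w w' a s)).card ≤ 3 := by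
    refine (Finset.card_le_card (t := {s, s ^ a, (s ^ a) ^ a}) ?_).trans Finset.card_le_three
    intro t' ht'
    rw [Finset.mem_filter] at ht'
    obtain ⟨ht1, htN⟩ := mem_T.1 ht'.1
    have h4 := ht'.2
    rcases fibre_NN hw h3 hs1 hsN ht1 htN (congrArg Prod.fst h4).symm (congrArg Prod.snd h4).symm
      with h | h | h
    · simp [h]
    · simp [h]
    · simp [h]
  rw [Finset.sum_const, nsmul_eq_mul]
  have h5 : (((T a).filter (fun t => cc w w' a t = cc w w' a s)).card : ℝ) ≤ 3 := by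
    exact_mod_cast hcard
  have h6 : (3 : ℝ) ≤ M (pt (cc w w' a s)) := by exact_mod_cast hM s hs
  have h7 : (0 : ℝ) ≤ (9 - c) / 3 := by linarith
  nlinarith

theorem total (hw : Cub w w') (h3 : 3 ∣ a) (ha : 3 ≤ a) (hF : F.IsHomogeneous d)
    (h0 : aeval (pp w w' a) F = 0) {M : PP ℂ 2 → ℕ} (hM : ∀ p m, m ≤ M p ↔ F ∈ mI p.rep ^ m) :
    (∀ q ∈ ZZ w w' a, 2 ≤ M q) ∧ ∀ c : ℝ, c ≤ 3 →
      2 * ((2 * (a : ℝ)) ^ 2 - c) + 6 * ((a : ℝ) ^ 2 - c) + ((a : ℝ) ^ 2 + a) * ((9 - c) / 3) ≤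
        ∑ q ∈ ZZ w w' a, ((M q : ℝ) ^ 2 - c) := by
  classical
  obtain ⟨m1, m2, m3, m4, m5⟩ := M_bound hw h3 ha hF h0 hM
  refine ⟨?_, ?_⟩
  · intro q hq
    unfold ZZ at hq
    rcases Finset.mem_insert.1 hq with rfl | hq
    · omega
    rcases Finset.mem_insert.1 hq with rfl | hq
    · omega
    obtain ⟨x, hx, rfl⟩ := Finset.mem_image.1 hq
    rcases Finset.mem_union.1 hx with hx | hx
    · rcases Finset.mem_union.1 hx with hx | hx
      · have := m3 x hx; omega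
      · have := m4 x hx; omega
    · obtain ⟨t, ht, rfl⟩ := Finset.mem_image.1 hx
      have := m5 t ht; omega
  · intro c hc
    rw [sum_ZZ hw h3]
    have ha0 : (0 : ℝ) ≤ a := Nat.cast_nonneg a
    have sq : ∀ {x y : ℕ}, x ≤ y → (x : ℝ) ^ 2 ≤ (y : ℝ) ^ 2 := by
      intro x y h
      have : (x : ℝ) ≤ y := by exact_mod_cast h
      have hx : (0 : ℝ) ≤ x := Nat.cast_nonneg x
      nlinarith
    have k1 := sq m1
    have k2 := sq m2
    push_cast at k1 k2
    have k3 : (3 : ℝ) * ((a : ℝ) ^ 2 - c) ≤ ∑ x ∈ ZA, ((M (pt x) : ℝ) ^ 2 - c) := by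
      have := Finset.card_nsmul_le_sum ZA (fun x => ((M (pt x) : ℝ) ^ 2 - c)) ((a : ℝ) ^ 2 - c)
        (fun x hx => by linarith [sq (m3 x hx)])
      rw [card_ZA, nsmul_eq_mul] at this
      exact_mod_cast this
    have k4 : (3 : ℝ) * ((a : ℝ) ^ 2 - c) ≤ ∑ x ∈ ZB w w', ((M (pt x) : ℝ) ^ 2 - c) := by
      have := Finset.card_nsmul_le_sum (ZB w w') (fun x => ((M (pt x) : ℝ) ^ 2 - c)) ((a : ℝ) ^ 2 - c)
        (fun x hx => by linarith [sq (m4 x hx)])
      rw [card_ZB hw, nsmul_eq_mul] at this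
      exact_mod_cast this
    have k5 := sum_T hw h3 m5 hc
    linarith

theorem P1_mem : P1 ∈ ZZ w w' a := by
  classical
  unfold ZZ
  exact Finset.mem_insert_self _ _

end Pool.Agent.KS6_95.HM
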