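import Pool.Agent.KS6_95.HM.Alg

/-!
# The parameters
-/

set_option autoImplicit false

namespace Pool.Agent.KS6_95.HM

theorem unimod {u v : ℂ} (hu : ‖u‖ = 1) (hv : ‖v‖ = 1) (h : 1 + u + v = 0) : u ^ 3 = 1 := by
  have h1 : u * (starRingEnd ℂ) u = 1 := by
    rw [Complex.mul_conj, Complex.normSq_eq_norm_sq, hu]; norm_num
  have h2 : v * (starRingEnd ℂ) v = 1 := by
    rw [Complex.mul_conj, Complex.normSq_eq_norm_sq, hv]; norm_num
  have h3 := congrArg (starRingEnd ℂ) h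
  rw [map_add, map_add, map_one, map_zero] at h3
  have h4 : u * v = 1 := by
    linear_combination (-1 : ℂ) * h + u * v * h3 - v * h1 - u * h2
  have h5 : u ^ 2 + u + 1 = 0 := by
    linear_combination u * h - h4
  linear_combination (u - 1) * h5

theorem rho_cases {w w' : ℂ} (hw : Cub w w') {P P' : ℂ}
    (h : ((P' - w') * (P - w)) ^ 3 = ((P - w') * (P' - w)) ^ 3) :
    P' = P ∨ P * P' + P' + 1 = 0 ∨ P * P' + P + 1 = 0 := by
  have hm := hw.m
  have hs := hw.s
  have hsq := hw.sq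
  have hsq' := hw.symm.sq
  have e1 : (P' - w') * (P - w) - (P - w') * (P' - w) = (w - w') * (P - P') := by ring
  have e2 : (P' - w') * (P - w) - w * ((P - w') * (P' - w)) = (1 - w) * (P * P' + P' + 1) := by
    linear_combination P * hsq + (P' + 1 - w) * hm
  have e3 : (P' - w') * (P - w) - w' * ((P - w') * (P' - w)) = (1 - w') * (P * P' + P + 1) := by
    linear_combination P' * hsq' + (P + 1 - w') * hm
  have e4 : ((w - w') * (P - P')) * (((1 - w) * (P * P' + P' + 1)) *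
      ((1 - w') * (P * P' + P + 1))) = 0 := by
    rw [← e1, ← e2, ← e3]
    set X := (P' - w') * (P - w)
    set Y := (P - w') * (P' - w)
    linear_combination h - X * Y * (X - Y) * hs + Y ^ 2 * (X - Y) * hm
  have n1 : w - w' ≠ 0 := sub_ne_zero.2 hw.ne
  have n2 : 1 - w ≠ 0 := sub_ne_zero.2 (Ne.symm hw.ne_one)
  have n3 : 1 - w' ≠ 0 := sub_ne_zero.2 (Ne.symm hw.symm.ne_one)
  rcases mul_eq_zero.1 e4 with h4 | h4
  · left
    exact (sub_eq_zero.1 ((mul_eq_zero.1 h4).resolve_left n1)).symm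
  · rcases mul_eq_zero.1 h4 with h4 | h4
    · right; left
      exact (mul_eq_zero.1 h4).resolve_left n2
    · right; right
      exact (mul_eq_zero.1 h4).resolve_left n3

/-- the order of the subgroup of the triple points -/
def NN (a : ℕ) : ℕ := a ^ 2 + a + 1

theorem one_of_nine {a : ℕ} (h3 : 3 ∣ a) {t : ℂ} (h : t ^ 9 = 1) (hN : t ^ NN a = 1) : t = 1 := by
  have hc : Nat.Coprime 9 (NN a) := by
    have : Nat.Coprime 3 (NN a) := by
      rw [Nat.Prime.coprime_iff_not_dvd (by norm_num)]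
      intro hd
      unfold NN at hd
      have h4 : 3 ∣ a ^ 2 + a := by
        have : 3 ∣ a * a := Dvd.dvd.mul_right h3 a
        rw [pow_two]
        exact dvd_add this h3
      have h5 := (Nat.dvd_add_right h4).1 hd
      norm_num at h5
    exact Nat.Coprime.pow_left 2 this
  have h6 : t ^ Nat.gcd 9 (NN a) = 1 := pow_gcd_eq_one.2 ⟨h, hN⟩
  rw [hc] at h6
  simpa using h6

theorem one_of_three {a : ℕ} (h3 : 3 ∣ a) {t : ℂ} (h : t ^ 3 = 1) (hN : t ^ NN a = 1) : t = 1 := by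
  apply one_of_nine h3 _ hN
  rw [show 9 = 3 * 3 by norm_num, pow_mul, h, one_pow]

theorem cube_a {a : ℕ} (h3 : 3 ∣ a) {t : ℂ} (h : t ^ 3 = 1) : t ^ a = 1 := by
  obtain ⟨k, rfl⟩ := h3
  rw [pow_mul, h, one_pow]

theorem NN_of {a : ℕ} {t s : ℂ} (h1 : t * t ^ a * s = 1) (h2 : s = (t ^ a) ^ a) :
    t ^ NN a = 1 := by
  rw [← h1, h2, NN]
  ring

theorem NN_of' {a : ℕ} {t s : ℂ} (h1 : t * t ^ a * s = 1) (h2 : s ^ a = t) :
    t ^ NN a = 1 := by
  have h3 : (t * t ^ a * s) ^ a = 1 := by rw [h1, one_pow]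
  rw [mul_pow, h2] at h3
  rw [← h3, NN]
  ring

section

variable {w w' : ℂ} {a : ℕ} {t : ℂ}

theorem pqr {a : ℕ} {t : ℂ} (h0 : t ≠ 0) : t * t ^ a * (t * t ^ a)⁻¹ = 1 :=
  mul_inv_cancel₀ (mul_ne_zero h0 (pow_ne_zero _ h0))

theorem nine_of_BB (hw : Cub w w') {p q r : ℂ} (hp : ‖p‖ = 1) (hq : ‖q‖ = 1) (hr : ‖r‖ = 1)
    (h1 : p * q * r = 1) (h : BB w w' p q r = 0) : p ^ 9 = 1 := by
  have hp0 : p ≠ 0 := by intro h; rw [h] at hp; simp at hp
  have hq0 : q ≠ 0 := by intro h; rw [h] at hq; simp at hq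
  have e : 1 + w * (r / p) + w' * (r / q) = 0 := by
    unfold BB at h
    field_simp
    linear_combination h
  have n1 : ‖w * (r / p)‖ = 1 := by rw [norm_mul, norm_div, hw.norm, hp, hr]; norm_num
  have n2 : ‖w' * (r / q)‖ = 1 := by rw [norm_mul, norm_div, hw.symm.norm, hq, hr]; norm_num
  have u1 := unimod n1 n2 e
  have u2 := unimod n2 n1 (by linear_combination e)
  rw [mul_pow, hw.cube, one_mul, div_pow, div_eq_one_iff_eq (pow_ne_zero _ hp0)] at u1
  rw [mul_pow, hw.symm.cube, one_mul, div_pow, div_eq_one_iff_eq (pow_ne_zero _ hq0)] at u2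
  have h3 : (p * q * r) ^ 3 = 1 := by rw [h1, one_pow]
  rw [mul_pow, mul_pow, ← u2, u1] at h3
  rw [← h3]; ring

theorem norm_of_NN (hN : t ^ NN a = 1) : ‖t‖ = 1 :=
  Complex.norm_eq_one_of_pow_eq_one hN (by unfold NN; omega)

theorem norms_of_NN (hN : t ^ NN a = 1) : ‖t‖ = 1 ∧ ‖t ^ a‖ = 1 ∧ ‖(t * t ^ a)⁻¹‖ = 1 := by
  have h := norm_of_NN hN
  refine ⟨h, ?_, ?_⟩
  · rw [norm_pow, h, one_pow]
  · rw [norm_inv, norm_mul, norm_pow, h]; norm_num

theorem GG_ne_of_NN (hw : Cub w w') (h3 : 3 ∣ a) (ht1 : t ≠ 1) (hN : t ^ NN a = 1) :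
    GG w w' t (t ^ a) ≠ 0 := by
  have h0 : t ≠ 0 := by
    rintro rfl
    rw [zero_pow (by unfold NN; omega)] at hN
    exact zero_ne_one hN
  intro h
  rw [GG_eq (pqr h0)] at h
  have h2 := (mul_eq_zero.1 h).resolve_left (mul_ne_zero h0 (pow_ne_zero _ h0))
  obtain ⟨n1, n2, n3⟩ := norms_of_NN hN
  exact ht1 (one_of_nine h3 (nine_of_BB hw n1 n2 n3 (pqr h0) h2) hN)

/-! ### the points at infinity -/

theorem inf_ne (hw : Cub w w') (h3 : 3 ∣ a) (h0 : t ≠ 0) (h1 : t ≠ 1)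
    (h : GG w w' t (t ^ a) = 0) : GG w' w t (t ^ a) ≠ 0 := by
  intro h'
  have e1 : (w - w') * (t ^ a - t) = 0 := by
    unfold GG at h h'
    linear_combination h - h'
  have e2 : t ^ a = t := sub_eq_zero.1 ((mul_eq_zero.1 e1).resolve_left (sub_ne_zero.2 hw.ne))
  unfold GG at h
  rw [e2] at h
  have e3 : t * (t ^ 3 - 1) = 0 := by linear_combination h - t * hw.s
  have e4 : t ^ 3 = 1 := sub_eq_zero.1 ((mul_eq_zero.1 e3).resolve_left h0)
  rw [cube_a h3 e4] at e2
  exact h1 e2.symm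

theorem inf_F (hw : Cub w w') (h3 : 3 ∣ a) (h0 : t ≠ 0) (h1 : t ≠ 1)
    (h : GG w w' t (t ^ a) = 0) : FF w w' t (t ^ a) ≠ 0 := by
  intro h'
  have hpq : t * t ^ a ≠ 0 := mul_ne_zero h0 (pow_ne_zero _ h0)
  apply inf_ne hw h3 h0 h1 h
  rw [GG_eq (pqr h0)] at h ⊢
  rw [FF_eq (pqr h0)] at h'
  have hB := (mul_eq_zero.1 h).resolve_left hpq
  have hA := (mul_eq_zero.1 h').resolve_left hpq
  have h2 := rel_B hw (pqr (a := a) h0)
  rw [hA, hB, mul_zero, mul_zero, add_zero] at h2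
  rw [pow_eq_zero_iff (two_ne_zero)] at h2
  rw [h2, mul_zero]

theorem inf_inj (hw : Cub w w') (h3 : 3 ∣ a) {t' : ℂ} (h0 : t ≠ 0) (h1 : t ≠ 1) (h0' : t' ≠ 0)
    (h1' : t' ≠ 1) (h : GG w w' t (t ^ a) = 0) (h' : GG w w' t' (t' ^ a) = 0)
    (heq : FF w' w t (t ^ a) / GG w' w t (t ^ a) = FF w' w t' (t' ^ a) / GG w' w t' (t' ^ a)) :
    t' = t := by
  have key : ∀ s : ℂ, s ≠ 0 → s ≠ 1 → GG w w' s (s ^ a) = 0 →
      BB w w' s (s ^ a) (s * s ^ a)⁻¹ = 0 ∧ BB w' w s (s ^ a) (s * s ^ a)⁻¹ ≠ 0 ∧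
      s + s ^ a + (s * s ^ a)⁻¹ = 3 * w * (FF w' w s (s ^ a) / GG w' w s (s ^ a)) ^ 2 ∧
      s * s ^ a + s ^ a * (s * s ^ a)⁻¹ + (s * s ^ a)⁻¹ * s =
        -3 * w' * (FF w' w s (s ^ a) / GG w' w s (s ^ a)) := by
    intro s hs0 hs1 hs
    have hpq : s * s ^ a ≠ 0 := mul_ne_zero hs0 (pow_ne_zero _ hs0)
    have hG' := inf_ne hw h3 hs0 hs1 hs
    have hF := inf_F hw h3 hs0 hs1 hs
    rw [GG_eq (pqr hs0)] at hs hG'
    rw [FF_eq (pqr hs0)] at hF
    rw [GG_eq (pqr hs0) (w := w') (w' := w), FF_eq (pqr hs0) (w := w') (w' := w),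
      mul_div_mul_left _ _ hpq]
    have hB := (mul_eq_zero.1 hs).resolve_left hpq
    have hB' := right_ne_zero_of_mul hG'
    have hA := right_ne_zero_of_mul hF
    have r1 := rel_A hw (p := s) (q := s ^ a) (r := (s * s ^ a)⁻¹)
    have r2 := rel_B hw (pqr (a := a) hs0)
    have r3 := rel_B hw.symm (pqr (a := a) hs0)
    set r := (s * s ^ a)⁻¹
    set q := s ^ a
    rw [hB, mul_zero, add_zero] at r1
    rw [hB, mul_zero, zero_add] at r2
    rw [hB] at r3
    have hw0 := hw.ne_zero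
    refine ⟨hB, hB', ?_, ?_⟩
    · rw [div_pow, r1, r2]
      field_simp
    · have : BB w' w s q r * (s * q + q * r + r * s) = -(3 * w' * AA w' w s q r) := by
        linear_combination (-1 : ℂ) * r3
      field_simp
      linear_combination this
  obtain ⟨b1, b2, b3, b4⟩ := key t h0 h1 h
  obtain ⟨c1, c2, c3, c4⟩ := key t' h0' h1' h'
  rw [← heq] at c3 c4
  have hr := pqr (a := a) h0
  have hr' := pqr (a := a) h0'
  set r := (t * t ^ a)⁻¹ with hrdef
  set r' := (t' * t' ^ a)⁻¹ with hrdef'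
  have s1 : t' + t' ^ a + r' = t + t ^ a + r := by rw [b3, c3]
  have s2 : t' * t' ^ a + t' ^ a * r' + r' * t' = t * t ^ a + t ^ a * r + r * t := by rw [b4, c4]
  have hNt : t ^ NN a = 1 → False := by
    intro hN
    obtain ⟨n1, n2, n3⟩ := norms_of_NN hN
    exact h1 (one_of_nine h3 (nine_of_BB hw n1 n2 n3 (pqr h0) b1) hN)
  have hp : (t' - t) * ((t' - t ^ a) * (t' - r)) = 0 := by
    linear_combination t' ^ 2 * s1 - t' * s2 + hr' - hr
  have hq : (t' ^ a - t) * ((t' ^ a - t ^ a) * (t' ^ a - r)) = 0 := by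
    linear_combination (t' ^ a) ^ 2 * s1 - t' ^ a * s2 + hr' - hr
  rcases mul_eq_zero.1 hp with h | h
  · exact sub_eq_zero.1 h
  · exfalso
    rcases mul_eq_zero.1 h with h | h
    · -- `t' = t ^ a`
      have e1 : t' = t ^ a := sub_eq_zero.1 h
      -- sum and product of the other two
      have hta : t ^ a ≠ 0 := pow_ne_zero _ h0
      have e2 : (t' ^ a - t) * (t' ^ a - r) = 0 := by
        have f1 : t' ^ a + r' = t + r := by rw [e1] at s1 ⊢; linear_combination s1
        have f2 : t' ^ a * r' = t * r := by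
          apply mul_left_cancel₀ hta
          have : t ^ a * ((t ^ a) ^ a * r') = 1 := by rw [e1] at hr'; linear_combination hr'
          rw [e1, this]
          linear_combination (-1 : ℂ) * hr
        linear_combination t' ^ a * f1 - f2
      rcases mul_eq_zero.1 e2 with e | e
      · -- odd
        have e3 : t' ^ a = t := sub_eq_zero.1 e
        have e4 : r' = r := by rw [e1] at s1 e3; rw [e3] at s1; linear_combination s1
        apply b2
        rw [e3, e4, e1] at c1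
        unfold BB at c1 ⊢
        linear_combination c1
      · have e3 : t' ^ a = r := sub_eq_zero.1 e
        apply hNt
        exact NN_of hr (by rw [← e3, e1])
    · have e1 : t' = r := sub_eq_zero.1 h
      have hr0 : r ≠ 0 := inv_ne_zero (mul_ne_zero h0 (pow_ne_zero _ h0))
      have e2 : (t' ^ a - t) * (t' ^ a - t ^ a) = 0 := by
        have f1 : t' ^ a + r' = t + t ^ a := by rw [e1] at s1 ⊢; linear_combination s1
        have f2 : t' ^ a * r' = t * t ^ a := by
          apply mul_left_cancel₀ hr0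
          have : r * (r ^ a * r') = 1 := by rw [e1] at hr'; linear_combination hr'
          rw [e1, this]
          linear_combination (-1 : ℂ) * hr
        linear_combination t' ^ a * f1 - f2
      rcases mul_eq_zero.1 e2 with e | e
      · have e3 : t' ^ a = t := sub_eq_zero.1 e
        apply hNt
        exact NN_of' (s := t') (by rw [e1]; exact hr) e3
      · -- odd
        have e3 : t' ^ a = t ^ a := sub_eq_zero.1 e
        have e4 : r' = t := by rw [e3, e1] at s1; linear_combination s1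
        apply b2
        rw [e3, e4, e1] at c1
        unfold BB at c1 ⊢
        have hm := hw.m
        have hsq := hw.sq
        have hsq' := hw.symm.sq
        linear_combination w' * c1 - (t ^ a * t) * hm - r * t * hsq'
          + (t ^ a * r) * (0 : ℂ) * hm

end

end Pool.Agent.KS6_95.HM
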